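import Mathlib

open Complex Metric Set Filter Topology MeasureTheory

set_option linter.unusedSectionVars false

namespace Pool.Agent.Y847.SG

/-- Normalised bounded star-like function in the unit disc: analytic and univalent in the open unit
disc, `f 0 = 0`, `f' 0 = 1`, the image of the disc is star-shaped with respect to `0`, and `f` is
bounded in the disc. -/
structure NormBddStarlike (f : ℂ → ℂ) : Prop where
  analytic : AnalyticOnNhd ℂ f (Metric.ball (0 : ℂ) 1)
  univalent : Set.InjOn f (Metric.ball (0 : ℂ) 1)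
  map_zero : f 0 = 0
  deriv_zero : deriv f 0 = 1
  starShaped : StarConvex ℝ (0 : ℂ) (f '' Metric.ball (0 : ℂ) 1)
  bounded : ∃ C : ℝ, ∀ z ∈ Metric.ball (0 : ℂ) 1, ‖f z‖ ≤ C

/-- The closed arc of the unit circle that starts at angle `a` and has length `l`. -/
def arc (a l : ℝ) : Set ℂ := (fun θ : ℝ => Complex.exp (Complex.I * (θ : ℂ))) '' Set.Icc a (a + l)

/-- `E` has zero logarithmic measure: for every `ε > 0` it is covered by countably many arcs of
lengths `l i < 1` with `∑ 1 / log (1 / l i) < ε`. -/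
def ZeroLogMeasure (E : Set ℂ) : Prop :=
  ∀ ε : ℝ, 0 < ε → ∃ (ι : Type) (_ : Countable ι) (a l : ι → ℝ),
    (∀ i, 0 < l i ∧ l i < 1) ∧ E ⊆ ⋃ i, arc (a i) (l i) ∧
    Summable (fun i => 1 / Real.log (1 / l i)) ∧ ∑' i, 1 / Real.log (1 / l i) < ε

/-- Key monotonicity inequality (Noshiro and Warschawski). -/
theorem key_ineq {F : ℂ → ℂ} {H : Set ℂ} (hH : Convex ℝ H)
    (hF : ∀ w ∈ H, DifferentiableAt ℂ F w) (hre : ∀ w ∈ H, 0 < (deriv F w).re)
    {w₁ w₂ : ℂ} (h₁ : w₁ ∈ H) (h₂ : w₂ ∈ H) (hne : w₁ ≠ w₂) :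
    0 < ((F w₁ - F w₂) * (starRingEnd ℂ) (w₁ - w₂)).re := by
  set d := w₁ - w₂ with hd
  have hd0 : d ≠ 0 := sub_ne_zero.mpr hne
  let g : ℝ → ℝ := fun s => (F (w₂ + s * d) * (starRingEnd ℂ) d).re
  have hmem : ∀ s ∈ Icc (0:ℝ) 1, w₂ + s * d ∈ H := by
    intro s hs
    have := hH h₂ h₁ (a := 1 - s) (b := s) (by linarith [hs.2]) hs.1 (by ring)
    have e : (1 - s) • w₂ + s • w₁ = w₂ + s * d := by
      rw [hd]; simp only [Complex.real_smul]; push_cast; ring
    rwa [e] at this
  have hderiv : ∀ s ∈ Icc (0:ℝ) 1, HasDerivAt g ((deriv F (w₂ + s * d) * d * (starRingEnd ℂ) d).re) s := by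
    intro s hs
    have h1 : HasDerivAt F (deriv F (w₂ + s * d)) (w₂ + s * d) := (hF _ (hmem s hs)).hasDerivAt
    have h2 : HasDerivAt (fun s : ℝ => w₂ + (s : ℂ) * d) d s := by
      have := ((Complex.ofRealCLM.hasDerivAt (x := s)).mul_const d).const_add w₂
      simpa using this
    have h3 : HasDerivAt (fun s : ℝ => F (w₂ + (s : ℂ) * d)) (deriv F (w₂ + s * d) * d) s := by
      have := h1.comp_of_eq s h2 rfl
      simpa [Function.comp_def] using this
    have h4 := h3.mul_const ((starRingEnd ℂ) d)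
    have h5 := (Complex.reCLM.hasFDerivAt.comp_hasDerivAt s h4)
    simpa [Function.comp_def, g] using h5
  have hmono : StrictMonoOn g (Icc 0 1) := by
    apply strictMonoOn_of_deriv_pos (convex_Icc 0 1)
    · intro s hs
      exact (hderiv s hs).continuousAt.continuousWithinAt
    · intro s hs
      rw [interior_Icc] at hs
      have hs' : s ∈ Icc (0:ℝ) 1 := ⟨hs.1.le, hs.2.le⟩
      rw [(hderiv s hs').deriv]
      have e : deriv F (w₂ + s * d) * d * (starRingEnd ℂ) d = deriv F (w₂ + s * d) * ((normSq d : ℝ) : ℂ) := by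
        rw [mul_assoc, Complex.mul_conj]
      rw [e, Complex.re_mul_ofReal]
      exact mul_pos (hre _ (hmem s hs')) (Complex.normSq_pos.mpr hd0)
  have := hmono (left_mem_Icc.mpr zero_le_one) (right_mem_Icc.mpr zero_le_one) zero_lt_one
  have e1 : g 1 = (F w₁ * (starRingEnd ℂ) d).re := by simp [g, hd]
  have e0 : g 0 = (F w₂ * (starRingEnd ℂ) d).re := by simp [g]
  rw [e1, e0] at this
  rw [sub_mul, Complex.sub_re]
  linarith

/-- left half plane -/
def LH : Set ℂ := {w | w.re < 0}

theorem LH_convex : Convex ℝ LH := by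
  have := convex_halfSpace_re_lt 0
  simpa [LH] using this

theorem LH_open : IsOpen LH := isOpen_lt Complex.continuous_re continuous_const

theorem exp_mem_ball {w : ℂ} (hw : w ∈ LH) : exp w ∈ ball (0:ℂ) 1 := by
  rw [mem_ball_zero_iff, Complex.norm_exp]
  exact Real.exp_lt_one_iff.mpr hw

theorem starlike_inj {h : ℂ → ℂ} (hd : ∀ z ∈ ball (0:ℂ) 1, DifferentiableAt ℂ h z)
    {M : ℝ} (hb : ∀ z ∈ ball (0:ℂ) 1, ‖h z‖ ≤ M)
    (hre : ∀ z ∈ ball (0:ℂ) 1, 0 < (1 + z * deriv h z).re) :
    InjOn (fun z => z * exp (h z)) (ball 0 1) ∧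
    StarConvex ℝ 0 ((fun z => z * exp (h z)) '' ball (0:ℂ) 1) := by
  let F : ℂ → ℂ := fun w => w + h (exp w)
  have hFd : ∀ w ∈ LH, HasDerivAt F (1 + exp w * deriv h (exp w)) w := by
    intro w hw
    have h1 : HasDerivAt h (deriv h (exp w)) (exp w) := (hd _ (exp_mem_ball hw)).hasDerivAt
    have h2 := h1.comp w (Complex.hasDerivAt_exp w)
    have h3 := (hasDerivAt_id w).add h2
    have e : 1 + exp w * deriv h (exp w) = 1 + deriv h (exp w) * exp w := by ring
    rw [e]; exact h3
  have hFre : ∀ w ∈ LH, 0 < (deriv F w).re := by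
    intro w hw; rw [(hFd w hw).deriv]; exact hre _ (exp_mem_ball hw)
  have hFdiff : ∀ w ∈ LH, DifferentiableAt ℂ F w := fun w hw => (hFd w hw).differentiableAt
  have key : ∀ {w₁ w₂ : ℂ}, w₁ ∈ LH → w₂ ∈ LH → w₁ ≠ w₂ →
      0 < ((F w₁ - F w₂) * (starRingEnd ℂ) (w₁ - w₂)).re :=
    fun h1 h2 hne => key_ineq LH_convex hFdiff hFre h1 h2 hne
  have hfF : ∀ w, (fun z => z * exp (h z)) (exp w) = exp (F w) := by
    intro w; simp only [F]; rw [Complex.exp_add]
  have hlog : ∀ z ∈ ball (0:ℂ) 1, z ≠ 0 → ∃ w ∈ LH, exp w = z := by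
    intro z hz hz0
    refine ⟨log z, ?_, Complex.exp_log hz0⟩
    show (log z).re < 0
    rw [Complex.log_re]
    exact Real.log_neg (norm_pos_iff.mpr hz0) (by simpa using hz)
  have hper : ∀ (w : ℂ) (k : ℤ), F (w + k * (2 * Real.pi * I)) = F w + k * (2 * Real.pi * I) := by
    intro w k
    simp only [F]
    have : exp (w + k * (2 * Real.pi * I)) = exp w := by
      rw [Complex.exp_add, Complex.exp_int_mul_two_pi_mul_I, mul_one]
    rw [this]; ring
  have hLHper : ∀ (w : ℂ) (k : ℤ), w ∈ LH → w + k * (2 * Real.pi * I) ∈ LH := by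
    intro w k hw
    show (w + k * (2 * Real.pi * I)).re < 0
    have : (w + k * (2 * Real.pi * I)).re = w.re := by
      simp
    rw [this]; exact hw
  constructor
  · intro z₁ hz₁ z₂ hz₂ hEq
    simp only at hEq
    by_cases h1 : z₁ = 0
    · subst h1
      have : z₂ * exp (h z₂) = 0 := by rw [← hEq]; simp
      rcases mul_eq_zero.mp this with h | h
      · exact h.symm
      · exact absurd h (Complex.exp_ne_zero _)
    by_cases h2 : z₂ = 0
    · subst h2
      have : z₁ * exp (h z₁) = 0 := by rw [hEq]; simp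
      rcases mul_eq_zero.mp this with h | h
      · exact h
      · exact absurd h (Complex.exp_ne_zero _)
    obtain ⟨w₁, hw₁, rfl⟩ := hlog z₁ hz₁ h1
    obtain ⟨w₂, hw₂, rfl⟩ := hlog z₂ hz₂ h2
    have e1 : exp (F w₁) = exp (F w₂) := by
      rw [← hfF, ← hfF]; exact hEq
    obtain ⟨k, hk⟩ := Complex.exp_eq_exp_iff_exists_int.mp e1
    rw [← hper] at hk
    have hw3 := hLHper w₂ k hw₂
    have : w₁ = w₂ + k * (2 * Real.pi * I) := by
      by_contra hne
      have := key hw₁ hw3 hne
      rw [hk] at this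
      simp at this
    rw [this, Complex.exp_add, Complex.exp_int_mul_two_pi_mul_I, mul_one]
  · rw [starConvex_zero_iff]
    rintro x ⟨z, hz, rfl⟩ t ht0 ht1
    by_cases hz0 : z = 0
    · subst hz0; exact ⟨0, by simp, by simp⟩
    rcases eq_or_lt_of_le ht0 with ht | ht
    · subst ht; exact ⟨0, by simp, by simp⟩
    obtain ⟨w₀, hw₀, rfl⟩ := hlog z hz hz0
    -- the open set
    let U : Set ℝ := {s | ∃ w ∈ LH, F w = F w₀ - s}
    have hUopen : IsOpen U := by
      have hop : IsOpen (F '' LH) := by
        rw [isOpen_iff_mem_nhds]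
        rintro y ⟨w, hw, rfl⟩
        have hA : AnalyticAt ℂ F w := by
          have : DifferentiableOn ℂ F LH := fun u hu => (hFdiff u hu).differentiableWithinAt
          exact this.analyticAt (LH_open.mem_nhds hw)
        have hs : HasStrictDerivAt F (deriv F w) w := hA.hasStrictDerivAt
        have hne : deriv F w ≠ 0 := by
          intro h0; have := hFre w hw; rw [h0] at this; simp at this
        rw [← hs.map_nhds_eq hne]
        exact image_mem_map (LH_open.mem_nhds hw)
      have : U = (fun s : ℝ => F w₀ - (s:ℂ)) ⁻¹' (F '' LH) := by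
        ext s; simp [U]
      rw [this]
      exact hop.preimage (by fun_prop)
    have h0U : (0:ℝ) ∈ U := ⟨w₀, hw₀, by simp⟩
    have hclos : closure U ∩ Ici 0 ⊆ U := by
      rintro s ⟨hs, hs0⟩
      rcases eq_or_lt_of_le (show (0:ℝ) ≤ s from hs0) with h | hspos
      · rw [← h]; exact h0U
      -- compactness
      let R : ℝ := ‖F w₀‖ + (s + 1) + M
      let Kc : Set ℂ := {w | w.re ≤ w₀.re} ∩ closedBall 0 R
      have hKc : IsCompact Kc :=
        (isCompact_closedBall 0 R).inter_left (isClosed_le Complex.continuous_re continuous_const)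
      have hKLH : Kc ⊆ LH := by
        intro w hw
        have h1 : w.re ≤ w₀.re := hw.1
        have h2 : w₀.re < 0 := hw₀
        exact lt_of_le_of_lt h1 h2
      have hFc : ContinuousOn F Kc := fun w hw => (hFdiff w (hKLH hw)).continuousAt.continuousWithinAt
      have hcl : IsClosed (F '' Kc) := (hKc.image_of_continuousOn hFc).isClosed
      have hcl2 : IsClosed ((fun s : ℝ => F w₀ - (s:ℂ)) ⁻¹' (F '' Kc)) :=
        hcl.preimage (by fun_prop)
      have hsub : U ∩ Ioo 0 (s+1) ⊆ (fun s : ℝ => F w₀ - (s:ℂ)) ⁻¹' (F '' Kc) := by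
        rintro r ⟨⟨w, hw, hwr⟩, hr0, hr1⟩
        refine ⟨w, ⟨?_, ?_⟩, hwr⟩
        · -- monotonic
          by_contra hlt
          have hlt' : w₀.re < w.re := not_le.mp hlt
          have hne : w₀ ≠ w := by rintro rfl; exact lt_irrefl _ hlt'
          have := key hw₀ hw hne
          have e : F w₀ - F w = (r : ℂ) := by rw [hwr]; ring
          rw [e, Complex.re_ofReal_mul] at this
          have h2 : 0 < (starRingEnd ℂ (w₀ - w)).re := by
            by_contra hcon
            have := mul_nonpos_of_nonneg_of_nonpos hr0.le (not_lt.mp hcon)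
            linarith
          simp at h2
          linarith
        · rw [mem_closedBall_zero_iff]
          have e : w = F w - h (exp w) := by simp [F]
          rw [e, hwr]
          have h1 : ‖F w₀ - (r:ℂ) - h (exp w)‖ ≤ ‖F w₀‖ + ‖(r:ℂ)‖ + ‖h (exp w)‖ := by
            calc _ ≤ ‖F w₀ - (r:ℂ)‖ + ‖h (exp w)‖ := norm_sub_le _ _
              _ ≤ _ := by gcongr; exact norm_sub_le _ _
          have h2 : ‖(r:ℂ)‖ = r := by rw [Complex.norm_real, Real.norm_eq_abs, abs_of_pos hr0]
          have h3 := hb _ (exp_mem_ball hw)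
          simp only [R]
          linarith
      have hs2 : s ∈ closure (U ∩ Ioo 0 (s+1)) := by
        have : s ∈ closure U ∩ Ioo 0 (s+1) := ⟨hs, hspos, by linarith⟩
        exact isOpen_Ioo.closure_inter this
      have := (closure_minimal hsub hcl2) hs2
      obtain ⟨w, hw, hw2⟩ := this
      exact ⟨w, hKLH hw, hw2⟩
    have hall : Ici (0:ℝ) ⊆ U :=
      isPreconnected_Ici.subset_of_closure_inter_subset hUopen ⟨0, by simp, h0U⟩ hclos
    have hs : -Real.log t ∈ Ici (0:ℝ) := by
      have := Real.log_nonpos ht.le ht1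
      simpa using this
    obtain ⟨w, hw, hwF⟩ := hall hs
    refine ⟨exp w, exp_mem_ball hw, ?_⟩
    rw [hfF, hwF, hfF]
    push_cast
    rw [sub_neg_eq_add, Complex.exp_add, ← Complex.ofReal_exp, Real.exp_log ht]
    rw [Complex.real_smul, mul_comm]

/-- exponents: `eps k = exp (- ee k)` -/
class Dat where
  ee : ℕ → ℝ
  ee_zero : 32 ≤ ee 0
  ee_next : ∀ k, 2 * (32 * 2 ^ k * ee k) ≤ ee (k + 1)

export Dat (ee)

variable [Dat]

noncomputable def LL (k : ℕ) : ℝ := 32 * 2 ^ k * ee k

noncomputable def eps (k : ℕ) : ℝ := Real.exp (-ee k)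

noncomputable def del (k : ℕ) : ℝ := Real.exp (-LL k)

noncomputable def tt (k : ℕ) : ℝ := (9/10) ^ k

noncomputable def mm (k : ℕ) : ℝ := tt k / (2 * LL k)

theorem ee_succ (k : ℕ) : 2 * LL k ≤ ee (k+1) := Dat.ee_next k

theorem ee_ge (k : ℕ) : 32 ≤ ee k := by
  induction k with
  | zero => exact Dat.ee_zero
  | succ k ih =>
    refine le_trans ?_ (ee_succ k)
    rw [LL]
    have : (1:ℝ) ≤ 2 ^ k := one_le_pow₀ (by norm_num)
    nlinarith

theorem ee_pos (k : ℕ) : 0 < ee k := lt_of_lt_of_le (by norm_num) (ee_ge k)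

theorem LL_ge (k : ℕ) : 32 * ee k ≤ LL k := by
  have h : (1:ℝ) ≤ 2 ^ k := one_le_pow₀ (by norm_num)
  have := ee_pos k
  rw [LL]; nlinarith

theorem LL_ge' (k : ℕ) : 1024 * 2 ^ k ≤ LL k := by
  have h : (0:ℝ) < 2 ^ k := by positivity
  have := ee_ge k
  rw [LL]; nlinarith

theorem LL_pos (k : ℕ) : 0 < LL k := lt_of_lt_of_le (by have := ee_pos k; positivity) (LL_ge k)

theorem LL_ge1024 (k : ℕ) : 1024 ≤ LL k := by
  have := LL_ge k; have := ee_ge k; linarith

theorem eps_pos (k : ℕ) : 0 < eps k := Real.exp_pos _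
theorem del_pos (k : ℕ) : 0 < del k := Real.exp_pos _
theorem tt_pos (k : ℕ) : 0 < tt k := by unfold tt; positivity
theorem mm_pos (k : ℕ) : 0 < mm k := by
  unfold mm; have := tt_pos k; have := LL_pos k; positivity

theorem eps_succ (k : ℕ) : eps (k+1) ≤ del k ^ 2 := by
  rw [eps, del, ← Real.exp_nat_mul]; apply Real.exp_le_exp.mpr; push_cast; linarith [ee_succ k]

/-- a crude bound -/
theorem exp_neg_32 : Real.exp (-32) ≤ 1 / 64 := by
  have h : (1:ℝ) - 32 ≤ Real.exp (-32) := by have := Real.add_one_le_exp (-32:ℝ); linarith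
  have h1 : (64:ℝ) ≤ Real.exp 32 := by
    have h2 : (2:ℝ) ≤ Real.exp 1 := by have := Real.add_one_le_exp (1:ℝ); linarith
    have h3 : Real.exp 32 = Real.exp 1 ^ 32 := by rw [← Real.exp_nat_mul]; norm_num
    rw [h3]
    calc (64:ℝ) ≤ 2 ^ 32 := by norm_num
      _ ≤ _ := pow_le_pow_left₀ (by norm_num) h2 32
  rw [Real.exp_neg]
  rw [inv_eq_one_div]
  exact one_div_le_one_div_of_le (by norm_num) h1

theorem eps_le (k : ℕ) : eps k ≤ 1 / 64 := by
  refine le_trans ?_ exp_neg_32
  rw [eps]; exact Real.exp_le_exp.mpr (by linarith [ee_ge k])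

theorem del_le_eps (k : ℕ) : del k ≤ eps k := by
  rw [del, eps]; exact Real.exp_le_exp.mpr (by linarith [LL_ge k, ee_pos k])

theorem del_le (k : ℕ) : del k ≤ 1 / 64 := (del_le_eps k).trans (eps_le k)

theorem eps_succ_le (k : ℕ) : eps (k+1) ≤ eps k / 64 := by
  refine (eps_succ k).trans ?_
  rw [pow_two]
  have h1 := del_le k; have h2 := del_pos k; have h3 := del_le_eps k
  nlinarith

theorem eps_succ_le_del (k : ℕ) : eps (k+1) ≤ del k / 64 := by
  refine (eps_succ k).trans ?_
  rw [pow_two]
  have h1 := del_le k; have h2 := del_pos k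
  nlinarith

theorem eps_add_le (k l : ℕ) : eps (k + l) ≤ eps k * (1/64) ^ l := by
  induction l with
  | zero => simp
  | succ l ih =>
    rw [← add_assoc, pow_succ]
    have := eps_succ_le (k + l)
    linarith [this, ih]

theorem summable_eps : Summable eps := by
  refine Summable.of_nonneg_of_le (fun k => (eps_pos k).le) (fun k => ?_)
    ((summable_geometric_of_lt_one (r := (1:ℝ)/64) (by norm_num) (by norm_num)).mul_left (eps 0))
  simpa using eps_add_le 0 k

theorem del_anti {k n : ℕ} (h : k ≤ n) : del n ≤ del k := by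
  induction n, h using Nat.le_induction with
  | base => exact le_refl _
  | succ n hn ih =>
    have h1 : del (n+1) ≤ eps (n+1) := del_le_eps _
    have h2 := eps_succ_le_del n
    have h3 := del_pos n
    linarith

/-- angle of a digit sequence -/
noncomputable def th (x : ℕ → Bool) : ℝ := ∑' k, (if x k then eps k else 0)

theorem summable_th (x : ℕ → Bool) : Summable (fun k => if x k then eps k else 0) := by
  refine Summable.of_nonneg_of_le (fun k => ?_) (fun k => ?_) summable_eps
  · split_ifs; exacts [(eps_pos k).le, le_refl _]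
  · split_ifs; exacts [le_refl _, (eps_pos k).le]

theorem tail_bound (x y : ℕ → Bool) (n : ℕ) :
    |∑' k, ((if x (k+n) then eps (k+n) else 0) - (if y (k+n) then eps (k+n) else 0))| ≤ 2 * eps n := by
  have hb : ∀ k, |(if x (k+n) then eps (k+n) else 0) - (if y (k+n) then eps (k+n) else 0)|
      ≤ eps n * (1/64) ^ k := by
    intro k
    have h1 := eps_add_le n k
    rw [add_comm n k] at h1
    have h2 := eps_pos (k+n)
    split_ifs <;> simp only [sub_zero, zero_sub, sub_self, abs_zero, abs_neg, abs_of_pos h2] <;> first | exact h1 | positivity | linarith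
  have hs : Summable (fun k => eps n * (1/64 : ℝ) ^ k) :=
    (summable_geometric_of_lt_one (r := (1:ℝ)/64) (by norm_num) (by norm_num)).mul_left (eps n)
  have h1 : ‖∑' k, ((if x (k+n) then eps (k+n) else 0) - (if y (k+n) then eps (k+n) else 0))‖
      ≤ ∑' k, eps n * (1/64 : ℝ) ^ k := tsum_of_norm_bounded hs.hasSum hb
  rw [Real.norm_eq_abs] at h1
  refine h1.trans ?_
  rw [tsum_mul_left, tsum_geometric_of_lt_one (by norm_num) (by norm_num)]
  have := eps_pos n
  norm_num
  linarith

theorem th_sub (x y : ℕ → Bool) (n : ℕ) (h : ∀ i < n, x i = y i) :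
    th x - th y = ∑' k, ((if x (k+n) then eps (k+n) else 0) - (if y (k+n) then eps (k+n) else 0)) := by
  have hx := (summable_th x)
  have hy := (summable_th y)
  rw [th, th, ← hx.tsum_sub hy]
  rw [← (hx.sub hy).sum_add_tsum_nat_add n]
  have : ∑ i ∈ Finset.range n, ((if x i then eps i else 0) - (if y i then eps i else 0)) = 0 := by
    apply Finset.sum_eq_zero
    intro i hi
    rw [h i (Finset.mem_range.mp hi)]; simp
  rw [this, zero_add]

theorem th_close (x y : ℕ → Bool) (n : ℕ) (h : ∀ i < n, x i = y i) : |th x - th y| ≤ 2 * eps n := by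
  rw [th_sub x y n h]; exact tail_bound x y n

theorem th_sep (x y : ℕ → Bool) (n : ℕ) (h : ∀ i < n, x i = y i) (hn : x n ≠ y n) :
    eps n / 2 ≤ |th x - th y| := by
  rw [th_sub x y n h]
  have hs : Summable (fun k => ((if x (k+n) then eps (k+n) else 0) - (if y (k+n) then eps (k+n) else 0))) := by
    have := (summable_th x).sub (summable_th y)
    exact (summable_nat_add_iff n).mpr this
  rw [hs.tsum_eq_zero_add]
  have ht := tail_bound x y (n+1)
  have e : (∑' k, ((if x (k+1+n) then eps (k+1+n) else 0) - (if y (k+1+n) then eps (k+1+n) else 0)))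
     = (∑' k, ((if x (k+(n+1)) then eps (k+(n+1)) else 0) - (if y (k+(n+1)) then eps (k+(n+1)) else 0))) := by
    congr 1; ext k; rw [show k+1+n = k+(n+1) by ring]
  rw [e]
  set T := (∑' k, ((if x (k+(n+1)) then eps (k+(n+1)) else 0) - (if y (k+(n+1)) then eps (k+(n+1)) else 0))) with hT
  have h1 := eps_succ_le n
  have h2 := eps_pos n
  simp only [zero_add]
  rw [abs_le] at ht
  rcases hx : x n with _ | _ <;> rcases hy : y n with _ | _
  · rw [hx, hy] at hn; exact absurd rfl hn
  · simp only [Bool.false_eq_true, if_false, if_true, zero_sub]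
    rw [le_abs]; right; linarith [ht.1, ht.2]
  · simp only [Bool.false_eq_true, if_false, if_true, sub_zero]
    rw [le_abs]; left; linarith [ht.1, ht.2]
  · rw [hx, hy] at hn; exact absurd rfl hn

theorem exp_sub_one_ge {α : ℝ} (h : |α| ≤ 1) : |α| / 2 ≤ ‖exp (I * α) - 1‖ := by
  rw [Complex.norm_exp_I_mul_ofReal_sub_one, Real.norm_eq_abs, abs_mul, abs_two]
  have hpi := Real.pi_gt_three
  have hpi4 := Real.pi_le_four
  have h1 : |α / 2| ≤ Real.pi / 2 := by
    rw [abs_div, abs_two]; linarith
  have h2 := Real.mul_abs_le_abs_sin h1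
  have h3 : 1 / 2 ≤ 2 / Real.pi := by
    rw [div_le_div_iff₀ (by norm_num) (by linarith)]; linarith
  have h4 : |α / 2| = |α| / 2 := by rw [abs_div, abs_two]
  have h5 : 1 / 2 * |α / 2| ≤ 2 / Real.pi * |α / 2| := by gcongr
  rw [h4] at h5 h2
  linarith [abs_nonneg α]

theorem exp_sub_one_le {α : ℝ} : ‖exp (I * α) - 1‖ ≤ |α| := by
  have := Real.norm_exp_I_mul_ofReal_sub_one_le (x := α)
  simpa [Real.norm_eq_abs] using this

/-- the digit sequence of a node -/
def nd (k : ℕ) (S : Finset ℕ) : ℕ → Bool := fun i => decide (i ∈ S) || decide (i = k)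

/-- the points `a` -/
noncomputable def aa (k : ℕ) (S : Finset ℕ) : ℂ := (1 - del k : ℝ) * exp (-(I * (th (nd k S) : ℝ)))

theorem one_sub_del_pos (k : ℕ) : 0 < 1 - del k := by have := del_le k; linarith

theorem norm_aa (k : ℕ) (S : Finset ℕ) : ‖aa k S‖ = 1 - del k := by
  rw [aa, norm_mul, Complex.norm_real, Real.norm_eq_abs, abs_of_pos (one_sub_del_pos k)]
  have : ‖exp (-(I * (th (nd k S) : ℝ)))‖ = 1 := by
    rw [Complex.norm_exp]; simp
  rw [this, mul_one]

theorem ker_lower {k : ℕ} {S : Finset ℕ} {z : ℂ} (hz : ‖z‖ ≤ 1) : del k ≤ (1 - aa k S * z).re := by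
  have h1 : ‖aa k S * z‖ ≤ 1 - del k := by
    rw [norm_mul, norm_aa]
    have := one_sub_del_pos k
    nlinarith [norm_nonneg z]
  have h2 := Complex.re_le_norm (aa k S * z)
  simp only [Complex.sub_re, Complex.one_re]
  linarith

theorem ker_lower' {k : ℕ} {S : Finset ℕ} {z : ℂ} (hz : ‖z‖ ≤ 1) : del k ≤ ‖1 - aa k S * z‖ :=
  (ker_lower hz).trans (Complex.re_le_norm _)

theorem ker_upper {k : ℕ} {S : Finset ℕ} {z : ℂ} (hz : ‖z‖ ≤ 1) : ‖1 - aa k S * z‖ ≤ 2 := by
  have h1 : ‖aa k S * z‖ ≤ 1 := by
    rw [norm_mul, norm_aa]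
    have := one_sub_del_pos k
    have := del_pos k
    nlinarith [norm_nonneg z]
  calc _ ≤ ‖(1:ℂ)‖ + ‖aa k S * z‖ := norm_sub_le _ _
    _ ≤ 2 := by rw [norm_one]; linarith

theorem ker_slit {k : ℕ} {S : Finset ℕ} {z : ℂ} (hz : ‖z‖ ≤ 1) : 1 - aa k S * z ∈ slitPlane := by
  left; exact lt_of_lt_of_le (del_pos k) (ker_lower hz)

theorem th_nonneg (x : ℕ → Bool) : 0 ≤ th x := by
  apply tsum_nonneg; intro k; split_ifs; exacts [(eps_pos k).le, le_refl _]

theorem th_diff_le (x y : ℕ → Bool) : |th x - th y| ≤ 1 := by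
  have := th_close x y 0 (by simp)
  have := eps_le 0
  linarith

theorem eps_anti {k n : ℕ} (h : k ≤ n) : eps n ≤ eps k := by
  induction n, h using Nat.le_induction with
  | base => exact le_refl _
  | succ n hn ih =>
    have h1 := eps_succ_le n; have := eps_pos n
    linarith

/-- separation when sequences differ at some index at most `k` -/
theorem th_sep' (x y : ℕ → Bool) (k : ℕ) (h : ∃ i ≤ k, x i ≠ y i) : eps k / 2 ≤ |th x - th y| := by
  classical
  have hex : ∃ i, x i ≠ y i := ⟨h.choose, h.choose_spec.2⟩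
  let i := Nat.find hex
  have hi : x i ≠ y i := Nat.find_spec hex
  have hmin : ∀ j < i, x j = y j := fun j hj => by
    by_contra hc; exact Nat.find_min hex hj hc
  have hik : i ≤ k := (Nat.find_min' hex h.choose_spec.2).trans h.choose_spec.1
  have h1 := th_sep x y i hmin hi
  have h2 := eps_anti hik
  linarith

theorem nd_ne {k : ℕ} {S S' : Finset ℕ} (hS : S ∈ (Finset.range k).powerset)
    (hS' : S' ∈ (Finset.range k).powerset) (hne : S ≠ S') : ∃ i ≤ k, nd k S i ≠ nd k S' i := by
  by_contra hcon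
  push Not at hcon
  apply hne
  ext i
  rw [Finset.mem_powerset] at hS hS'
  by_cases hik : i < k
  · have := hcon i hik.le
    simp only [nd, hik.ne, decide_false, Bool.or_false, decide_eq_decide] at this
    exact this
  · constructor
    · intro h; exact absurd (Finset.mem_range.mp (hS h)) hik
    · intro h; exact absurd (Finset.mem_range.mp (hS' h)) hik

theorem exp_diff (α β : ℝ) : ‖exp (-(I * (α:ℝ))) - exp (-(I * (β:ℝ)))‖ = ‖exp (I * ((β - α : ℝ))) - 1‖ := by
  have : exp (-(I * (α:ℝ))) - exp (-(I * (β:ℝ))) = exp (-(I * (β:ℝ))) * (exp (I * ((β - α : ℝ))) - 1) := by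
    rw [mul_sub, ← Complex.exp_add, mul_one]; congr 2; push_cast; ring
  rw [this, norm_mul]
  have : ‖exp (-(I * (β : ℝ)))‖ = 1 := by rw [Complex.norm_exp]; simp
  rw [this, one_mul]

theorem aa_sep {k : ℕ} {S S' : Finset ℕ} (hS : S ∈ (Finset.range k).powerset)
    (hS' : S' ∈ (Finset.range k).powerset) (hne : S ≠ S') : eps k / 8 ≤ ‖aa k S - aa k S'‖ := by
  have h1 := th_sep' _ _ k (nd_ne hS hS' hne)
  have h2 := th_diff_le (nd k S') (nd k S)
  have h3 : |th (nd k S') - th (nd k S)| = |th (nd k S) - th (nd k S')| := abs_sub_comm _ _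
  have h4 := exp_sub_one_ge h2
  rw [aa, aa, ← mul_sub, norm_mul, Complex.norm_real, Real.norm_eq_abs, abs_of_pos (one_sub_del_pos k),
    exp_diff]
  have h5 := del_le k
  have h6 : 0 ≤ ‖exp (I * ((th (nd k S') - th (nd k S) : ℝ))) - 1‖ := norm_nonneg _
  have h7 : eps k / 4 ≤ ‖exp (I * ((th (nd k S') - th (nd k S) : ℝ))) - 1‖ := by
    rw [h3] at h4; linarith
  nlinarith

theorem card_exc (k : ℕ) {z : ℂ} (hz : ‖z‖ ≤ 1) :
    ((Finset.range k).powerset.filter (fun S => ‖1 - aa k S * z‖ < eps k / 64)).card ≤ 1 := by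
  rw [Finset.card_le_one]
  intro S hS S' hS'
  rw [Finset.mem_filter] at hS hS'
  by_contra hne
  have hsep := aa_sep hS.1 hS'.1 hne
  have h1 : ‖(aa k S - aa k S') * z‖ < eps k / 32 := by
    have e : (aa k S - aa k S') * z = (1 - aa k S' * z) - (1 - aa k S * z) := by ring
    rw [e]
    calc _ ≤ ‖1 - aa k S' * z‖ + ‖1 - aa k S * z‖ := norm_sub_le _ _
      _ < _ := by linarith [hS.2, hS'.2]
  have h2 : 1 / 2 ≤ ‖z‖ := by
    have h3 : 1 ≤ ‖1 - aa k S * z‖ + ‖aa k S * z‖ := by
      calc (1:ℝ) = ‖(1 - aa k S * z) + aa k S * z‖ := by simp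
        _ ≤ _ := norm_add_le _ _
    have h4 : ‖aa k S * z‖ ≤ ‖z‖ := by
      rw [norm_mul, norm_aa]
      have := del_pos k
      nlinarith [norm_nonneg z]
    have := eps_le k
    linarith [hS.2]
  rw [norm_mul] at h1
  have := eps_pos k
  nlinarith [norm_nonneg (aa k S - aa k S')]

theorem log_two_le : Real.log 2 ≤ 1 := by
  have := Real.log_le_sub_one_of_pos (x := 2) (by norm_num); linarith

theorem log_64_le : Real.log 64 ≤ 6 := by
  have : (64:ℝ) = 2 ^ 6 := by norm_num
  rw [this, Real.log_pow]; push_cast; linarith [log_two_le]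

/-- bound on log of norm -/
theorem abs_log_le {w : ℝ} {B : ℝ} (hB : 1 ≤ B) (hc : Real.exp (-B) ≤ w) (hw : w ≤ 2) : |Real.log w| ≤ B := by
  have hw0 : 0 < w := lt_of_lt_of_le (Real.exp_pos _) hc
  rw [abs_le]
  constructor
  · rw [Real.le_log_iff_exp_le hw0]; exact hc
  · exact (Real.log_le_log hw0 hw).trans (log_two_le.trans hB)

theorem norm_clog_le {w : ℂ} : ‖log w‖ ≤ |Real.log ‖w‖| + 4 := by
  have h1 := Complex.norm_le_abs_re_add_abs_im (log w)
  rw [Complex.log_re, Complex.log_im] at h1
  have h2 := Complex.abs_arg_le_pi w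
  have h3 := Real.pi_le_four
  linarith

noncomputable def HH (k : ℕ) (z : ℂ) : ℂ :=
  -(2 * mm k : ℝ) * ∑ S ∈ (Finset.range k).powerset, log (1 - aa k S * z)

theorem sum_log_bound (k : ℕ) {z : ℂ} (hz : ‖z‖ ≤ 1) :
    ∑ S ∈ (Finset.range k).powerset, ‖log (1 - aa k S * z)‖ ≤ (LL k + 4) + 2 ^ k * (ee k + 10) := by
  have h1 : ∀ S ∈ (Finset.range k).powerset, ‖log (1 - aa k S * z)‖ ≤
      (if ‖1 - aa k S * z‖ < eps k / 64 then (LL k + 4) else 0) + (ee k + 10) := by
    intro S hS
    have hlog := norm_clog_le (w := 1 - aa k S * z)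
    split_ifs with hc
    · have : |Real.log ‖1 - aa k S * z‖| ≤ LL k :=
        abs_log_le (by linarith [LL_ge1024 k]) (ker_lower' hz) (ker_upper hz)
      linarith [ee_pos k]
    · have : |Real.log ‖1 - aa k S * z‖| ≤ ee k + 6 := by
        apply abs_log_le (by linarith [ee_pos k]) _ (ker_upper hz)
        push Not at hc
        refine le_trans ?_ hc
        rw [neg_add, Real.exp_add, eps]
        have : Real.exp (-6) ≤ 1 / 64 := by
          rw [Real.exp_neg, inv_eq_one_div]
          apply one_div_le_one_div_of_le (by norm_num)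
          have := Real.exp_le_exp.mpr log_64_le
          rwa [Real.exp_log (by norm_num)] at this
        have h0 := Real.exp_pos (-ee k)
        calc _ ≤ Real.exp (-ee k) * (1/64) := by gcongr
          _ = _ := by ring
      linarith
  refine (Finset.sum_le_sum h1).trans ?_
  rw [Finset.sum_add_distrib, Finset.sum_const, Finset.card_powerset, Finset.card_range]
  have h2 : ∑ S ∈ (Finset.range k).powerset, (if ‖1 - aa k S * z‖ < eps k / 64 then (LL k + 4) else 0)
      ≤ LL k + 4 := by
    rw [← Finset.sum_filter, Finset.sum_const, nsmul_eq_mul]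
    have := card_exc k hz
    have h3 : (((Finset.range k).powerset.filter (fun S => ‖1 - aa k S * z‖ < eps k / 64)).card : ℝ) ≤ 1 := by
      exact_mod_cast this
    have := LL_pos k
    nlinarith
  simp only [nsmul_eq_mul]
  push_cast
  linarith

theorem HH_bound (k : ℕ) {z : ℂ} (hz : ‖z‖ ≤ 1) : ‖HH k z‖ ≤ 3 * tt k := by
  have h1 := sum_log_bound k hz
  have h2 : ‖∑ S ∈ (Finset.range k).powerset, log (1 - aa k S * z)‖ ≤ (LL k + 4) + 2 ^ k * (ee k + 10) :=
    (norm_sum_le _ _).trans h1
  rw [HH, norm_mul]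
  have h3 : ‖(-(2 * mm k : ℝ) : ℂ)‖ = 2 * mm k := by
    rw [norm_neg, Complex.norm_real, Real.norm_eq_abs, abs_of_pos]; have := mm_pos k; positivity
  rw [h3]
  have hm : 2 * mm k = tt k / LL k := by
    rw [mm]; have := LL_pos k; field_simp
  rw [hm]
  have hL := LL_pos k
  have ht := tt_pos k
  have h4 : (LL k + 4) + 2 ^ k * (ee k + 10) ≤ 3 * LL k := by
    have h5 := LL_ge1024 k
    have h6 : 2 ^ k * (ee k + 10) ≤ LL k := by
      rw [LL]
      have : (0:ℝ) < 2 ^ k := by positivity
      have := ee_ge k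
      nlinarith
    linarith
  calc _ ≤ tt k / LL k * (3 * LL k) := by
        apply mul_le_mul_of_nonneg_left (h2.trans h4) (by positivity)
    _ = 3 * tt k := by field_simp

theorem summable_tt : Summable tt := summable_geometric_of_lt_one (by norm_num) (by norm_num)

theorem tsum_tt : ∑' k, tt k = 10 := by
  unfold tt; rw [tsum_geometric_of_lt_one (by norm_num) (by norm_num)]; norm_num

noncomputable def hh (z : ℂ) : ℂ := ∑' k, HH k z

theorem summable_u : Summable (fun k => 3 * tt k) := summable_tt.mul_left 3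

theorem HH_diffAt (k : ℕ) {z : ℂ} (hz : ‖z‖ ≤ 1) : DifferentiableAt ℂ (HH k) z := by
  unfold HH
  apply DifferentiableAt.const_mul
  apply DifferentiableAt.fun_sum
  intro S _
  exact DifferentiableAt.clog (by fun_prop) (ker_slit hz)

theorem hh_contOn : ContinuousOn hh (closedBall 0 1) := by
  apply continuousOn_tsum (u := fun k => 3 * tt k)
  · intro k z hz
    exact (HH_diffAt k (by simpa using hz)).continuousAt.continuousWithinAt
  · exact summable_u
  · intro k z hz
    exact HH_bound k (by simpa using hz)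

theorem hh_bound {z : ℂ} (hz : ‖z‖ ≤ 1) : ‖hh z‖ ≤ 30 := by
  have := tsum_of_norm_bounded (f := fun k => HH k z) summable_u.hasSum (fun k => HH_bound k hz)
  refine this.trans ?_
  rw [tsum_mul_left, tsum_tt]; norm_num

theorem hh_diffOn : DifferentiableOn ℂ hh (ball 0 1) := by
  apply Complex.differentiableOn_tsum_of_summable_norm summable_u
  · intro k z hz
    exact (HH_diffAt k (by simpa using (mem_ball_zero_iff.mp hz).le)).differentiableWithinAt
  · exact isOpen_ball
  · intro k z hz
    exact HH_bound k (by simpa using (mem_ball_zero_iff.mp hz).le)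

theorem hh_zero : hh 0 = 0 := by
  unfold hh HH; simp

theorem HH_deriv (k : ℕ) {z : ℂ} (hz : ‖z‖ ≤ 1) :
    HasDerivAt (HH k) (-(2 * mm k : ℝ) * ∑ S ∈ (Finset.range k).powerset, (-(aa k S) / (1 - aa k S * z))) z := by
  unfold HH
  apply HasDerivAt.const_mul
  apply HasDerivAt.fun_sum
  intro S _
  have h1 : HasDerivAt (fun z : ℂ => 1 - aa k S * z) (-(aa k S)) z := by
    have := ((hasDerivAt_id z).const_mul (aa k S)).const_sub 1
    simpa using this
  exact h1.clog (ker_slit hz)

theorem re_ker {u : ℂ} (hu : ‖u‖ < 1) : -(1/2 : ℝ) ≤ (u / (1 - u)).re := by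
  have h0 : (1 - u) ≠ 0 := by
    intro h
    have : u = 1 := by linear_combination -h
    rw [this] at hu; simp at hu
  have h1 : u / (1 - u) = (1 - u)⁻¹ - 1 := by field_simp; ring
  rw [h1, Complex.sub_re, Complex.one_re, Complex.inv_re]
  have hn : 0 < normSq (1 - u) := Complex.normSq_pos.mpr h0
  have h2 : normSq (1 - u) = 1 - 2 * u.re + normSq u := by
    rw [Complex.normSq_apply, Complex.normSq_apply]; simp; ring
  have h3 : normSq u ≤ 1 := by
    rw [Complex.normSq_eq_norm_sq]; nlinarith [norm_nonneg u]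
  have h4 : (1/2 : ℝ) ≤ (1 - u).re / normSq (1 - u) := by
    rw [div_le_div_iff₀ (by norm_num) hn, h2]; simp; linarith
  linarith

theorem HH_re (k : ℕ) {z : ℂ} (hz : ‖z‖ < 1) : -(tt k / 2048) ≤ (z * deriv (HH k) z).re := by
  rw [(HH_deriv k hz.le).deriv]
  have e : z * (-(2 * mm k : ℝ) * ∑ S ∈ (Finset.range k).powerset, (-(aa k S) / (1 - aa k S * z)))
      = (2 * mm k : ℝ) * ∑ S ∈ (Finset.range k).powerset, ((aa k S * z) / (1 - aa k S * z)) := by
    rw [Finset.mul_sum, Finset.mul_sum, Finset.mul_sum]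
    apply Finset.sum_congr rfl
    intro S _; ring
  rw [e, Complex.re_ofReal_mul, Complex.re_sum]
  have h1 : -(2 ^ k * (1/2) : ℝ) ≤ ∑ S ∈ (Finset.range k).powerset, ((aa k S * z) / (1 - aa k S * z)).re := by
    have h2 : ∀ S ∈ (Finset.range k).powerset, -(1/2 : ℝ) ≤ ((aa k S * z) / (1 - aa k S * z)).re := by
      intro S _
      apply re_ker
      rw [norm_mul, norm_aa]
      have := one_sub_del_pos k; have := del_pos k
      nlinarith [norm_nonneg z]
    have h3 := Finset.sum_le_sum h2
    rw [Finset.sum_const, Finset.card_powerset, Finset.card_range, nsmul_eq_mul] at h3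
    push_cast at h3
    linarith
  have hm := mm_pos k
  have h4 : 2 * mm k * (2 ^ k * (1/2)) ≤ tt k / 2048 := by
    rw [mm, LL]
    have h5 := ee_ge k
    have h6 := tt_pos k
    have h7 : (0:ℝ) < 2 ^ k := by positivity
    have h8 : 2 * (tt k / (2 * (32 * 2 ^ k * ee k))) * (2 ^ k * (1/2)) = tt k / (64 * ee k) := by
      have := ee_pos k
      field_simp; ring
    rw [h8]
    apply div_le_div_of_nonneg_left h6.le (by norm_num)
    linarith
  nlinarith

theorem hh_re {z : ℂ} (hz : z ∈ ball (0:ℂ) 1) : 0 < (1 + z * deriv hh z).re := by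
  have hz' : ‖z‖ < 1 := by simpa using hz
  have hs := Complex.hasSum_deriv_of_summable_norm (F := HH) (U := ball (0:ℂ) 1) summable_u
    (fun k w hw => (HH_diffAt k (by simpa using (mem_ball_zero_iff.mp hw).le)).differentiableWithinAt)
    isOpen_ball (fun k w hw => HH_bound k (by simpa using (mem_ball_zero_iff.mp hw).le)) hz
  have hs2 := (hs.mul_left z)
  have hs3 := Complex.hasSum_re hs2
  have hlow : HasSum (fun k => -(tt k / 2048)) (-(10/2048)) := by
    have := (summable_tt.hasSum.div_const 2048).neg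
    rwa [tsum_tt] at this
  have := hasSum_le (fun k => HH_re k hz') hlow hs3
  have e : (z * deriv hh z).re = (z * deriv (fun w => ∑' i, HH i w) z).re := rfl
  rw [Complex.add_re, Complex.one_re, e]
  linarith

noncomputable def xi (x : ℕ → Bool) : ℂ := exp (I * (th x : ℝ))

theorem norm_xi (x : ℕ → Bool) : ‖xi x‖ = 1 := by
  rw [xi, Complex.norm_exp]; simp

theorem del_le_eps64 (k : ℕ) : del k ≤ eps k / 64 := by
  have h1 : del k ≤ Real.exp (-ee k + -32) := by
    rw [del]; apply Real.exp_le_exp.mpr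
    have := LL_ge k; have := ee_ge k; linarith
  rw [Real.exp_add] at h1
  have h2 := exp_neg_32
  have h3 := eps_pos k
  have h4 : Real.exp (-ee k) * Real.exp (-32) ≤ eps k * (1 / 64) := by
    rw [← eps]; gcongr
  linarith

theorem aa_mul_xi (k : ℕ) (S : Finset ℕ) (x : ℕ → Bool) :
    aa k S * xi x = (1 - del k : ℝ) * exp (I * ((th x - th (nd k S) : ℝ))) := by
  rw [aa, xi, mul_assoc, ← Complex.exp_add]; congr 2; push_cast; ring

theorem ker_far (k : ℕ) (S : Finset ℕ) (x : ℕ → Bool) (h : ∃ i ≤ k, x i ≠ nd k S i) :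
    eps k / 8 ≤ ‖1 - aa k S * xi x‖ := by
  have h1 := th_sep' x (nd k S) k h
  have h2 := exp_sub_one_ge (th_diff_le x (nd k S))
  rw [aa_mul_xi]
  set u := exp (I * ((th x - th (nd k S) : ℝ))) with hu
  have hu1 : ‖u‖ = 1 := by rw [hu, Complex.norm_exp]; simp
  have h3 : ‖u - 1‖ ≤ ‖1 - (1 - del k : ℝ) * u‖ + ‖(del k : ℂ) * u‖ := by
    have e : u - 1 = -(1 - (1 - del k : ℝ) * u) + (del k : ℂ) * u := by push_cast; ring
    rw [e]
    refine (norm_add_le _ _).trans ?_
    rw [norm_neg]
  rw [norm_mul, hu1, Complex.norm_real, Real.norm_eq_abs, abs_of_pos (del_pos k)] at h3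
  have := del_le_eps64 k
  have := eps_pos k
  linarith

theorem ker_near (k : ℕ) (S : Finset ℕ) (x : ℕ → Bool) (h : ∀ i < k + 1, x i = nd k S i) :
    ‖1 - aa k S * xi x‖ ≤ 2 * del k := by
  have h1 := th_close x (nd k S) (k+1) h
  have h2 := exp_sub_one_le (α := th x - th (nd k S))
  rw [aa_mul_xi]
  set u := exp (I * ((th x - th (nd k S) : ℝ))) with hu
  have hu1 : ‖u‖ = 1 := by rw [hu, Complex.norm_exp]; simp
  have h3 : ‖1 - (1 - del k : ℝ) * u‖ ≤ ‖u - 1‖ + ‖(del k : ℂ) * u‖ := by
    have e : 1 - (1 - del k : ℝ) * u = -(u - 1) + (del k : ℂ) * u := by push_cast; ring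
    rw [e]
    refine (norm_add_le _ _).trans ?_
    rw [norm_neg]
  rw [norm_mul, hu1, Complex.norm_real, Real.norm_eq_abs, abs_of_pos (del_pos k)] at h3
  have := eps_succ_le_del k
  have := del_pos k
  linarith

noncomputable def GG (k : ℕ) (x : ℕ → Bool) : ℝ := (HH k (xi x)).re

theorem GG_eq (k : ℕ) (x : ℕ → Bool) :
    GG k x = -(2 * mm k) * ∑ S ∈ (Finset.range k).powerset, Real.log ‖1 - aa k S * xi x‖ := by
  rw [GG, HH]
  rw [show (-(2 * mm k : ℝ) : ℂ) = ((-(2 * mm k) : ℝ) : ℂ) by push_cast; ring]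
  rw [Complex.re_ofReal_mul, Complex.re_sum]
  simp only [Complex.log_re]

theorem two_mm (k : ℕ) : 2 * mm k = tt k / LL k := by
  rw [mm]; have := LL_pos k; field_simp

theorem log_far (k : ℕ) (S : Finset ℕ) (x : ℕ → Bool) (h : ∃ i ≤ k, x i ≠ nd k S i) :
    |Real.log ‖1 - aa k S * xi x‖| ≤ ee k + 6 := by
  apply abs_log_le (by linarith [ee_pos k]) _ (ker_upper (norm_xi x).le)
  have h1 := ker_far k S x h
  refine le_trans ?_ h1
  rw [neg_add, Real.exp_add]
  have h2 : Real.exp (-6) ≤ 1 / 64 := by
    rw [Real.exp_neg, inv_eq_one_div]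
    apply one_div_le_one_div_of_le (by norm_num)
    have := Real.exp_le_exp.mpr log_64_le
    rwa [Real.exp_log (by norm_num)] at this
  have h0 := eps_pos k
  have : Real.exp (-ee k) * Real.exp (-6) ≤ eps k * (1/64) := by rw [← eps]; gcongr
  linarith

theorem far_sum_bound (k : ℕ) (x : ℕ → Bool) (T : Finset (Finset ℕ)) (hT : T ⊆ (Finset.range k).powerset)
    (h : ∀ S ∈ T, ∃ i ≤ k, x i ≠ nd k S i) :
    |(2 * mm k) * ∑ S ∈ T, Real.log ‖1 - aa k S * xi x‖| ≤ tt k / 20 := by
  rw [abs_mul, abs_of_pos (by have := mm_pos k; positivity), two_mm]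
  have h1 : |∑ S ∈ T, Real.log ‖1 - aa k S * xi x‖| ≤ 2 ^ k * (ee k + 6) := by
    refine (Finset.abs_sum_le_sum_abs _ _).trans ?_
    refine (Finset.sum_le_sum (fun S hS => log_far k S x (h S hS))).trans ?_
    rw [Finset.sum_const, nsmul_eq_mul]
    have hc : (T.card : ℝ) ≤ 2 ^ k := by
      have := Finset.card_le_card hT
      rw [Finset.card_powerset, Finset.card_range] at this
      exact_mod_cast this
    have := ee_pos k
    gcongr
  have hL := LL_pos k
  have ht := tt_pos k
  calc tt k / LL k * |∑ S ∈ T, Real.log ‖1 - aa k S * xi x‖| ≤ tt k / LL k * (2 ^ k * (ee k + 6)) := by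
        gcongr
    _ ≤ tt k / 20 := by
        rw [LL]
        have h2 : (0:ℝ) < 2 ^ k := by positivity
        have h3 := ee_ge k
        have h4 := ee_pos k
        have e : tt k / (32 * 2 ^ k * ee k) * (2 ^ k * (ee k + 6)) = tt k * ((ee k + 6) / (32 * ee k)) := by
          field_simp
        rw [e]
        have : (ee k + 6) / (32 * ee k) ≤ 1 / 20 := by
          rw [div_le_div_iff₀ (by positivity) (by norm_num)]; linarith
        calc tt k * ((ee k + 6) / (32 * ee k)) ≤ tt k * (1 / 20) := by gcongr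
          _ = _ := by ring

theorem GG_false (k : ℕ) (x : ℕ → Bool) (hx : x k = false) : |GG k x| ≤ tt k / 10 := by
  rw [GG_eq, neg_mul, abs_neg]
  have := far_sum_bound k x (Finset.range k).powerset (Finset.Subset.refl _) (fun S _ => ⟨k, le_refl k, by
    rw [hx]; simp [nd]⟩)
  have := tt_pos k
  linarith

theorem GG_true (k : ℕ) (x : ℕ → Bool) (hx : x k = true) : |GG k x - tt k| ≤ tt k / 10 := by
  set Sx : Finset ℕ := (Finset.range k).filter (fun i => x i = true) with hSx
  have hmem : Sx ∈ (Finset.range k).powerset := by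
    rw [Finset.mem_powerset]; exact Finset.filter_subset _ _
  have hnd : ∀ i < k + 1, x i = nd k Sx i := by
    intro i hi
    rcases Nat.lt_succ_iff_lt_or_eq.mp hi with h | h
    · simp only [nd, hSx, Finset.mem_filter, Finset.mem_range, h, true_and, h.ne, decide_false, Bool.or_false]
      rcases hxi : x i <;> simp
    · subst h; simp [nd, hx]
  rw [GG_eq, ← Finset.add_sum_erase _ _ hmem]
  have hfar := far_sum_bound k x ((Finset.range k).powerset.erase Sx) (Finset.erase_subset _ _) (by
    intro S hS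
    rw [Finset.mem_erase] at hS
    obtain ⟨i, hi, hne⟩ := nd_ne hS.2 hmem hS.1
    exact ⟨i, hi, by rw [hnd i (by omega)]; exact hne.symm⟩)
  have h1 := ker_near k Sx x hnd
  have h2 : del k ≤ ‖1 - aa k Sx * xi x‖ := ker_lower' (norm_xi x).le
  have h3 : -LL k ≤ Real.log ‖1 - aa k Sx * xi x‖ := by
    rw [Real.le_log_iff_exp_le (lt_of_lt_of_le (del_pos k) h2)]; exact h2
  have h4 : Real.log ‖1 - aa k Sx * xi x‖ ≤ -LL k + 1 := by
    have := Real.log_le_log (lt_of_lt_of_le (del_pos k) h2) h1
    rw [Real.log_mul (by norm_num) (del_pos k).ne', del, Real.log_exp] at this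
    linarith [log_two_le]
  set A := Real.log ‖1 - aa k Sx * xi x‖
  set B := ∑ S ∈ (Finset.range k).powerset.erase Sx, Real.log ‖1 - aa k S * xi x‖
  have hL := LL_ge1024 k
  have hLp := LL_pos k
  have ht := tt_pos k
  have e : -(2 * mm k) * (A + B) - tt k = -((2 * mm k) * (A + LL k)) - (2 * mm k) * B := by
    have : (2 * mm k) * LL k = tt k := by rw [two_mm]; field_simp
    linear_combination this
  rw [e]
  have h5 : |2 * mm k * (A + LL k)| ≤ tt k / 1024 := by
    rw [two_mm, abs_mul, abs_of_pos (by positivity), abs_of_nonneg (by linarith)]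
    calc tt k / LL k * (A + LL k) ≤ tt k / LL k * 1 := by gcongr; linarith
      _ = tt k / LL k := by ring
      _ ≤ tt k / 1024 := by gcongr
  rw [abs_le] at h5 hfar ⊢
  constructor <;> linarith [h5.1, h5.2, hfar.1, hfar.2]

theorem log_diff {u v c : ℝ} (hc : 0 < c) (hu : c ≤ u) (hv : c ≤ v) : |Real.log u - Real.log v| ≤ |u - v| / c := by
  wlog h : v ≤ u generalizing u v
  · rw [abs_sub_comm, abs_sub_comm u v]; exact this hv hu (not_le.mp h).le
  have hu0 : 0 < u := lt_of_lt_of_le hc hu
  have hv0 : 0 < v := lt_of_lt_of_le hc hv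
  rw [abs_of_nonneg (sub_nonneg.mpr (Real.log_le_log hv0 h)), abs_of_nonneg (sub_nonneg.mpr h),
    ← Real.log_div hu0.ne' hv0.ne']
  have h1 := Real.log_le_sub_one_of_pos (div_pos hu0 hv0)
  have h2 : u / v - 1 = (u - v) / v := by field_simp
  rw [h2] at h1
  refine h1.trans ?_
  apply div_le_div_of_nonneg_left (sub_nonneg.mpr h) hc hv

theorem xi_diff (x y : ℕ → Bool) : ‖xi x - xi y‖ ≤ |th x - th y| := by
  have e : xi x - xi y = xi y * (exp (I * ((th x - th y : ℝ))) - 1) := by
    rw [mul_sub, mul_one, xi, xi, ← Complex.exp_add]; congr 2; push_cast; ring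
  rw [e, norm_mul, norm_xi, one_mul]
  exact exp_sub_one_le

theorem tt_ge (n : ℕ) : del n ≤ tt (n+1) := by
  have h1 : (n:ℝ) + 1 ≤ LL n := by
    have h2 := LL_ge' n
    have h3 : (n:ℝ) + 1 ≤ 2 ^ n := by exact_mod_cast Nat.lt_two_pow_self
    have h4 : (0:ℝ) < 2 ^ n := by positivity
    linarith
  have h2 : del n ≤ Real.exp (-(((n+1 : ℕ)) : ℝ)) := by
    rw [del]; apply Real.exp_le_exp.mpr; push_cast; linarith
  refine h2.trans ?_
  rw [tt]
  have h3 : Real.exp (-(((n+1 : ℕ)) : ℝ)) = (Real.exp (-1)) ^ (n+1) := by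
    rw [← Real.exp_nat_mul]; congr 1; ring
  rw [h3]
  apply pow_le_pow_left₀ (Real.exp_pos _).le
  rw [Real.exp_neg, inv_eq_one_div]
  have h5 : (2:ℝ) ≤ Real.exp 1 := by have := Real.add_one_le_exp (1:ℝ); linarith
  calc 1 / Real.exp 1 ≤ 1 / 2 := one_div_le_one_div_of_le (by norm_num) h5
    _ ≤ 9 / 10 := by norm_num

theorem GG_var {k n : ℕ} (hk : k < n) (x y : ℕ → Bool) (h : ∀ i < n, x i = y i) :
    |GG k x - GG k y| ≤ tt k * tt n / 512 := by
  obtain ⟨m, rfl⟩ : ∃ m, n = m + 1 := ⟨n - 1, by omega⟩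
  have hkm : k ≤ m := by omega
  have h1 := th_close x y (m+1) h
  have h2 := xi_diff x y
  rw [GG_eq, GG_eq, ← mul_sub, ← Finset.sum_sub_distrib, abs_mul, abs_neg,
    abs_of_pos (by have := mm_pos k; positivity), two_mm]
  have h3 : |∑ S ∈ (Finset.range k).powerset, (Real.log ‖1 - aa k S * xi x‖ - Real.log ‖1 - aa k S * xi y‖)|
      ≤ 2 ^ k * (2 * eps (m+1) / del k) := by
    refine (Finset.abs_sum_le_sum_abs _ _).trans ?_
    have h4 : ∀ S ∈ (Finset.range k).powerset,
        |Real.log ‖1 - aa k S * xi x‖ - Real.log ‖1 - aa k S * xi y‖| ≤ 2 * eps (m+1) / del k := by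
      intro S _
      refine (log_diff (del_pos k) (ker_lower' (norm_xi x).le) (ker_lower' (norm_xi y).le)).trans ?_
      have h5 : |‖1 - aa k S * xi x‖ - ‖1 - aa k S * xi y‖| ≤ ‖xi x - xi y‖ := by
        refine (abs_norm_sub_norm_le _ _).trans ?_
        have e : (1 - aa k S * xi x) - (1 - aa k S * xi y) = -(aa k S * (xi x - xi y)) := by ring
        rw [e, norm_neg, norm_mul, norm_aa]
        have := del_pos k
        nlinarith [norm_nonneg (xi x - xi y)]
      have := del_pos k
      gcongr
      linarith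
    refine (Finset.sum_le_sum h4).trans ?_
    rw [Finset.sum_const, Finset.card_powerset, Finset.card_range, nsmul_eq_mul]
    push_cast; exact le_refl _
  have hL := LL_pos k
  have ht := tt_pos k
  have hd := del_pos k
  have hdm := del_pos m
  calc tt k / LL k * |∑ S ∈ (Finset.range k).powerset, (Real.log ‖1 - aa k S * xi x‖ - Real.log ‖1 - aa k S * xi y‖)|
      ≤ tt k / LL k * (2 ^ k * (2 * eps (m+1) / del k)) := by gcongr
    _ ≤ tt k / LL k * (2 ^ k * (2 * del m ^ 2 / del k)) := by
      have := eps_succ m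
      gcongr
    _ ≤ tt k * tt (m+1) / 512 := by
      have h6 : del m ^ 2 / del k ≤ del m := by
        rw [div_le_iff₀ hd, pow_two]
        have := del_anti hkm
        gcongr
      have h7 := tt_ge m
      have h8 : 2 ^ k / LL k ≤ 1 / 1024 := by
        rw [div_le_div_iff₀ hL (by norm_num)]
        have := LL_ge' k; linarith
      have e : tt k / LL k * (2 ^ k * (2 * del m ^ 2 / del k)) = tt k * 2 * (2 ^ k / LL k) * (del m ^ 2 / del k) := by
        field_simp
      rw [e]
      calc tt k * 2 * (2 ^ k / LL k) * (del m ^ 2 / del k) ≤ tt k * 2 * (1 / 1024) * tt (m+1) := by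
            gcongr
            exact h6.trans h7
        _ = _ := by ring

noncomputable def phi (x : ℕ → Bool) : ℝ := (hh (xi x)).re

theorem summable_HH (x : ℕ → Bool) : Summable (fun k => HH k (xi x)) :=
  Summable.of_norm_bounded summable_u (fun k => HH_bound k (norm_xi x).le)

theorem hasSum_phi (x : ℕ → Bool) : HasSum (fun k => GG k x) (phi x) :=
  Complex.hasSum_re (summable_HH x).hasSum

/-- merging two digit sequences -/
def J (a b : ℕ → Bool) : ℕ → Bool := fun i => if i % 2 = 0 then a (i / 2) else b (i / 2)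

/-- the overlap inequality -/
theorem overlap0 (n : ℕ) (hn1 : n % 2 = 1) (x y : ℕ → Bool) (h : ∀ i < n, x i = y i) (hxn : x n = true) (hyn : y n = false)
    (hx : ∀ i > n, i % 2 = 1 → x i = false ∧ y i = true) (hy : ∀ i > n, i % 2 = 0 → x i = y i) : phi x ≤ phi y := by
  have hs := (hasSum_phi x).sub (hasSum_phi y)
  have hn := tt_pos n
  have hbound : ∀ k, GG k x - GG k y ≤
      (if k < n then tt k * tt n / 512 else if k = n then 6/5 * tt n else if k % 2 = 1 then -(4/5 * tt k) else 1/5 * tt k) := by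
    intro k
    split_ifs with h1 h2 h3
    · exact (le_abs_self _).trans (GG_var h1 x y h)
    · subst h2
      have a := abs_le.mp (GG_true k x hxn)
      have b := abs_le.mp (GG_false k y hyn)
      linarith [a.2, b.1]
    · have hk : n < k := by omega
      obtain ⟨e1, e2⟩ := hx k hk h3
      have a := abs_le.mp (GG_false k x e1)
      have b := abs_le.mp (GG_true k y e2)
      linarith [a.2, b.1]
    · have hk : n < k := by omega
      have e1 := hy k hk (by omega)
      rcases e2 : x k with _ | _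
      · have a := abs_le.mp (GG_false k x e2)
        have b := abs_le.mp (GG_false k y (by rw [← e1, e2]))
        linarith [a.2, b.1]
      · have a := abs_le.mp (GG_true k x e2)
        have b := abs_le.mp (GG_true k y (by rw [← e1, e2]))
        linarith [a.2, b.1]
  set u : ℕ → ℝ := fun k => (if k < n then tt k * tt n / 512 else if k = n then 6/5 * tt n else if k % 2 = 1 then -(4/5 * tt k) else 1/5 * tt k) with hu
  have htail : HasSum (fun k => u (k + (n+1))) (18 / 19 * tt n + -(72 / 100 * (90 / 19) * tt n)) := by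
    have g := hasSum_geometric_of_lt_one (r := (81/100:ℝ)) (by norm_num) (by norm_num)
    rw [show ((1:ℝ) - 81/100)⁻¹ = 100/19 by norm_num] at g
    apply HasSum.even_add_odd
    · have h1 : ∀ k, u (2 * k + (n+1)) = (18/100 * tt n) * (81/100) ^ k := by
        intro k
        simp only [hu]
        rw [if_neg (by omega), if_neg (by omega), if_neg (by omega)]
        simp only [tt]; rw [pow_add, pow_add, pow_mul]; norm_num; ring
      rw [funext h1]
      have h2 := g.mul_left (18/100 * tt n)
      rw [show 18 / 19 * tt n = 18/100 * tt n * (100/19) by ring]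
      exact h2
    · have h1 : ∀ k, u (2 * k + 1 + (n+1)) = (-(648/1000) * tt n) * (81/100) ^ k := by
        intro k
        simp only [hu]
        rw [if_neg (by omega), if_neg (by omega), if_pos (by omega)]
        simp only [tt]; rw [pow_add, pow_add, pow_add, pow_mul]; norm_num; ring
      rw [funext h1]
      have h2 := g.mul_left (-(648/1000) * tt n)
      rw [show -(72 / 100 * (90 / 19) * tt n) = -(648/1000) * tt n * (100/19) by ring]
      exact h2
  have hsum : HasSum u (∑ k ∈ Finset.range (n+1), u k + (18 / 19 * tt n + -(72 / 100 * (90 / 19) * tt n))) := by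
    have := (hasSum_nat_add_iff (f := u) (n+1)).mp htail
    rwa [add_comm] at this
  have hle := hasSum_le hbound hs hsum
  have hfin : ∑ k ∈ Finset.range (n+1), u k ≤ tt n / 51 + 6/5 * tt n := by
    rw [Finset.sum_range_succ]
    have e1 : u n = 6/5 * tt n := by simp [hu]
    rw [e1]
    have e2 : ∑ k ∈ Finset.range n, u k = (∑ k ∈ Finset.range n, tt k) * (tt n / 512) := by
      rw [Finset.sum_mul]
      apply Finset.sum_congr rfl
      intro k hk
      simp only [hu]; rw [if_pos (Finset.mem_range.mp hk)]; ring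
    rw [e2]
    have e3 : ∑ k ∈ Finset.range n, tt k ≤ 10 := by
      rw [← tsum_tt]
      exact summable_tt.sum_le_tsum _ (fun k _ => (tt_pos k).le)
    have : (∑ k ∈ Finset.range n, tt k) * (tt n / 512) ≤ 10 * (tt n / 512) := by gcongr
    linarith
  linarith

theorem overlap (a : ℕ → Bool) (n : ℕ) (x y : ℕ → Bool) (h : ∀ i < n, x i = y i) (hxn : x n = true) (hyn : y n = false)
    (hx : ∀ i > n, x i = false) (hy : ∀ i > n, y i = true) : phi (J a x) ≤ phi (J a y) := by
  apply overlap0 (2 * n + 1) (by omega)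
  · intro i hi
    unfold J
    split_ifs with h1
    · rfl
    · exact h _ (by omega)
  · unfold J
    rw [if_neg (by omega), show (2 * n + 1) / 2 = n by omega]
    exact hxn
  · unfold J
    rw [if_neg (by omega), show (2 * n + 1) / 2 = n by omega]
    exact hyn
  · intro i hi h1
    unfold J
    rw [if_neg (by omega), if_neg (by omega)]
    exact ⟨hx _ (by omega), hy _ (by omega)⟩
  · intro i hi h1
    unfold J
    rw [if_pos h1, if_pos h1]

theorem phi_lt (a : ℕ → Bool) : phi (J a fun _ => false) + 1 ≤ phi (J a fun _ => true) := by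
  have hs := (hasSum_phi (J a fun _ => true)).sub (hasSum_phi (J a fun _ => false))
  have g := hasSum_geometric_of_lt_one (r := (81/100:ℝ)) (by norm_num) (by norm_num)
  rw [show ((1:ℝ) - 81/100)⁻¹ = 100/19 by norm_num] at g
  have h1 : HasSum (fun k => if k % 2 = 1 then 4/5 * tt k else -(1/5 * tt k)) (-(20/19) + 72/19) := by
    apply HasSum.even_add_odd
    · have e : ∀ k, (if (2 * k) % 2 = 1 then 4/5 * tt (2 * k) else -(1/5 * tt (2 * k))) = -(1/5) * (81/100) ^ k := by
        intro k
        rw [if_neg (by omega)]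
        simp only [tt]; rw [pow_mul]; norm_num
      rw [funext e]
      have := g.mul_left (-(1/5))
      rw [show (-(1/5) * (100/19) : ℝ) = -(20/19) by norm_num] at this
      exact this
    · have e : ∀ k, (if (2 * k + 1) % 2 = 1 then 4/5 * tt (2 * k + 1) else -(1/5 * tt (2 * k + 1))) = 72/100 * (81/100) ^ k := by
        intro k
        rw [if_pos (by omega)]
        simp only [tt]; rw [pow_add, pow_mul]; norm_num; ring
      rw [funext e]
      have := g.mul_left (72/100)
      rw [show (72/100 * (100/19) : ℝ) = 72/19 by norm_num] at this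
      exact this
  have := hasSum_le (fun k => by
    show (if k % 2 = 1 then 4/5 * tt k else -(1/5 * tt k)) ≤ GG k (J a fun _ => true) - GG k (J a fun _ => false)
    split_ifs with h3
    · have a1 := abs_le.mp (GG_true k (J a fun _ => true) (by simp [J, h3]))
      have b1 := abs_le.mp (GG_false k (J a fun _ => false) (by simp [J, h3]))
      linarith [a1.1, b1.2]
    · have e1 : k % 2 = 0 := by omega
      rcases e2 : a (k / 2) with _ | _
      · have a1 := abs_le.mp (GG_false k (J a fun _ => true) (by simp [J, e1, e2]))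
        have b1 := abs_le.mp (GG_false k (J a fun _ => false) (by simp [J, e1, e2]))
        linarith [a1.1, b1.2]
      · have a1 := abs_le.mp (GG_true k (J a fun _ => true) (by simp [J, e1, e2]))
        have b1 := abs_le.mp (GG_true k (J a fun _ => false) (by simp [J, e1, e2]))
        linarith [a1.1, b1.2]) h1 hs
  linarith

theorem J_cont (a : ℕ → Bool) : Continuous (J a) := by
  rw [continuous_pi_iff]
  intro i
  unfold J
  split_ifs
  · exact continuous_const
  · exact continuous_apply _

theorem th_cont : Continuous th := by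
  apply continuous_tsum (u := eps)
  · intro k
    have : Continuous (fun b : Bool => if b then eps k else 0) := continuous_of_discreteTopology
    exact this.comp (continuous_apply k)
  · exact summable_eps
  · intro k x
    have := eps_pos k
    split_ifs
    · rw [Real.norm_eq_abs, abs_of_pos this]
    · simpa using this.le

theorem xi_cont : Continuous xi := by
  unfold xi
  have := th_cont
  fun_prop

theorem phi_cont : Continuous phi := by
  have h1 : Continuous (fun x => hh (xi x)) := by
    apply hh_contOn.comp_continuous xi_cont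
    intro x; simp [norm_xi]
  exact Complex.continuous_re.comp h1

omit [Dat] in
/-- filling an interval -/
theorem fill_interval (psi : (ℕ → Bool) → ℝ) (psi_cont : Continuous psi)
    (overlap : ∀ (n : ℕ) (x y : ℕ → Bool), (∀ i < n, x i = y i) → x n = true → y n = false →
      (∀ i > n, x i = false) → (∀ i > n, y i = true) → psi x ≤ psi y)
    {s : ℝ} (h0 : psi (fun _ => false) ≤ s) (h1 : s ≤ psi (fun _ => true)) :
    ∃ x, psi x = s := by
  classical
  let w : (ℕ → Bool) → ℕ → (ℕ → Bool) := fun v n i => if i < n then v i else if i = n then false else true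
  let V : ℕ → (ℕ → Bool) := fun n => Nat.rec (fun _ => false)
    (fun n v => if psi (w v n) < s then Function.update v n true else v) n
  have V0 : V 0 = fun _ => false := rfl
  have Vs : ∀ n, V (n+1) = if psi (w (V n) n) < s then Function.update (V n) n true else V n := fun n => rfl
  have ha : ∀ n, ∀ i, n ≤ i → V n i = false := by
    intro n
    induction n with
    | zero => intro i _; rfl
    | succ n ih =>
      intro i hi
      rw [Vs]; split_ifs
      · rw [Function.update_of_ne (by omega)]; exact ih i (by omega)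
      · exact ih i (by omega)
  have hbc : ∀ n, psi (V n) ≤ s ∧ s ≤ psi (fun i => if i < n then V n i else true) := by
    intro n
    induction n with
    | zero => exact ⟨by rw [V0]; exact h0, by simpa using h1⟩
    | succ n ih =>
      by_cases hc : psi (w (V n) n) < s
      · have e : V (n+1) = Function.update (V n) n true := by rw [Vs, if_pos hc]
        constructor
        · rw [e]
          refine le_trans ?_ hc.le
          apply overlap n
          · intro i hi; rw [Function.update_of_ne (by omega)]; simp [w, hi]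
          · simp
          · simp [w]
          · intro i hi; rw [Function.update_of_ne (by omega)]; exact ha n i (by omega)
          · intro i hi
            have h1 : ¬ i < n := by omega
            have h2 : i ≠ n := by omega
            simp [w, h1, h2]
        · rw [e]
          have : (fun i => if i < n + 1 then Function.update (V n) n true i else true) = (fun i => if i < n then V n i else true) := by
            ext i
            by_cases h1 : i < n
            · rw [if_pos (by omega), if_pos h1, Function.update_of_ne (by omega)]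
            · rw [if_neg h1]
              by_cases h2 : i = n
              · subst h2; simp
              · rw [if_neg (by omega)]
          rw [this]; exact ih.2
      · have e : V (n+1) = V n := by rw [Vs, if_neg hc]
        constructor
        · rw [e]; exact ih.1
        · rw [e]
          have : (fun i => if i < n + 1 then V n i else true) = w (V n) n := by
            ext i
            simp only [w]
            by_cases h1 : i < n
            · rw [if_pos (by omega), if_pos h1]
            · rw [if_neg h1]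
              by_cases h2 : i = n
              · subst h2; simp [ha i i (le_refl _)]
              · rw [if_neg (by omega), if_neg h2]
          rw [this]; exact not_lt.mp hc
  let x : ℕ → Bool := fun i => V (i+1) i
  have hd : ∀ n i, i < n → V n i = x i := by
    intro n i hi
    induction n, (show i + 1 ≤ n from hi) using Nat.le_induction with
    | base => rfl
    | succ n hn ih =>
      rw [Vs]; split_ifs
      · rw [Function.update_of_ne (by omega)]; exact ih hn
      · exact ih hn
  have hlim1 : Tendsto V atTop (𝓝 x) := by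
    rw [tendsto_pi_nhds]
    intro i
    apply tendsto_const_nhds.congr'
    filter_upwards [eventually_gt_atTop i] with n hn
    exact (hd n i hn).symm
  have hlim2 : Tendsto (fun n => (fun i => if i < n then V n i else true)) atTop (𝓝 x) := by
    rw [tendsto_pi_nhds]
    intro i
    apply tendsto_const_nhds.congr'
    filter_upwards [eventually_gt_atTop i] with n hn
    rw [if_pos hn]; exact (hd n i hn).symm
  refine ⟨x, le_antisymm ?_ ?_⟩
  · exact le_of_tendsto' ((psi_cont.tendsto x).comp hlim1) (fun n => (hbc n).1)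
  · exact ge_of_tendsto' ((psi_cont.tendsto x).comp hlim2) (fun n => (hbc n).2)


/-- the function -/
noncomputable def ff (z : ℂ) : ℂ := z * exp (hh z)

theorem ff_starlike : NormBddStarlike ff where
  analytic := by
    have : DifferentiableOn ℂ ff (ball 0 1) := by
      unfold ff
      exact differentiableOn_id.mul hh_diffOn.cexp
    exact this.analyticOnNhd isOpen_ball
  univalent := (starlike_inj (fun z hz => hh_diffOn.differentiableAt (isOpen_ball.mem_nhds hz))
    (fun z hz => hh_bound (by simpa using (mem_ball_zero_iff.mp hz).le)) (fun z hz => hh_re hz)).1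
  map_zero := by simp [ff]
  deriv_zero := by
    have h1 : DifferentiableAt ℂ hh 0 := hh_diffOn.differentiableAt (isOpen_ball.mem_nhds (by simp))
    have h2 : HasDerivAt ff (1 * exp (hh 0) + 0 * (exp (hh 0) * deriv hh 0)) 0 :=
      (hasDerivAt_id (0:ℂ)).mul h1.hasDerivAt.cexp
    rw [h2.deriv, hh_zero]; simp
  starShaped := (starlike_inj (fun z hz => hh_diffOn.differentiableAt (isOpen_ball.mem_nhds hz))
    (fun z hz => hh_bound (by simpa using (mem_ball_zero_iff.mp hz).le)) (fun z hz => hh_re hz)).2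
  bounded := by
    refine ⟨Real.exp 30, fun z hz => ?_⟩
    have hz' : ‖z‖ < 1 := by simpa using hz
    rw [ff, norm_mul, Complex.norm_exp]
    have h1 : (hh z).re ≤ 30 := (Complex.re_le_norm _).trans (hh_bound hz'.le)
    have h2 : Real.exp (hh z).re ≤ Real.exp 30 := Real.exp_le_exp.mpr h1
    have h3 := Real.exp_pos (hh z).re
    nlinarith [norm_nonneg z]

/-- the set -/
noncomputable def EE : Set ℂ := Set.range xi

theorem norm_ff_xi (x : ℕ → Bool) : ‖ff (xi x)‖ = Real.exp (phi x) := by
  rw [ff, norm_mul, norm_xi, one_mul, Complex.norm_exp, phi]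

theorem ff_radial {ξ : ℂ} (hξ : ‖ξ‖ = 1) :
    Tendsto (fun r : ℝ => ff (r * ξ)) (𝓝[<] 1) (𝓝 (ff ξ)) := by
  have hc : ContinuousOn ff (closedBall 0 1) := by
    unfold ff
    exact continuousOn_id.mul hh_contOn.cexp
  have h1 : ContinuousWithinAt ff (closedBall 0 1) ξ := hc ξ (by simp [hξ])
  have h2 : Tendsto (fun r : ℝ => (r : ℂ) * ξ) (𝓝[<] 1) (𝓝[closedBall 0 1] ξ) := by
    apply tendsto_nhdsWithin_of_tendsto_nhds_of_eventually_within
    · have : Tendsto (fun r : ℝ => (r : ℂ) * ξ) (𝓝 1) (𝓝 (((1:ℝ):ℂ) * ξ)) := by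
        apply Continuous.tendsto; fun_prop
      simp only [Complex.ofReal_one, one_mul] at this
      exact this.mono_left nhdsWithin_le_nhds
    · have : ∀ᶠ r : ℝ in 𝓝[<] 1, r ∈ Ioo (0:ℝ) 1 := Ioo_mem_nhdsLT (by norm_num)
      filter_upwards [this] with r hr
      rw [mem_closedBall_zero_iff, norm_mul, hξ, Complex.norm_real, Real.norm_eq_abs, abs_of_pos hr.1]
      linarith [hr.2]
  exact h1.tendsto.comp h2

theorem th_mono {x y : ℕ → Bool} (h : ∀ i, x i = true → y i = true) : th x ≤ th y := by
  apply Summable.tsum_le_tsum _ (summable_th x) (summable_th y)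
  intro i
  rcases hx : x i with _ | _
  · simp only [Bool.false_eq_true, if_false]; split_ifs; exacts [(eps_pos i).le, le_refl _]
  · rw [h i hx]


end Pool.Agent.Y847.SG
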