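import Pool.Agent.Y847.SG.Base

set_option autoImplicit false
set_option linter.unusedSectionVars false

open Complex Metric Set Filter Topology MeasureTheory

namespace Pool.Agent.Y847.SG

variable [Dat]

theorem hh_re' {z : ℂ} (hz : z ∈ ball (0:ℂ) 1) : 1 / 2 ≤ (1 + z * deriv hh z).re := by
  have hz' : ‖z‖ < 1 := by simpa using hz
  have hs := Complex.hasSum_deriv_of_summable_norm (F := HH) (U := ball (0:ℂ) 1) summable_u
    (fun k w hw => (HH_diffAt k (by simpa using (mem_ball_zero_iff.mp hw).le)).differentiableWithinAt)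
    isOpen_ball (fun k w hw => HH_bound k (by simpa using (mem_ball_zero_iff.mp hw).le)) hz
  have hs2 := (hs.mul_left z)
  have hs3 := Complex.hasSum_re hs2
  have hlow : HasSum (fun k => -(tt k / 2048)) (-(10/2048)) := by
    have := (summable_tt.hasSum.div_const 2048).neg
    rwa [tsum_tt] at this
  have := hasSum_le (fun k => HH_re k hz') hlow hs3
  have e : (z * deriv hh z).re = (z * deriv (fun w => ∑' i, HH i w) z).re := rfl
  rw [Complex.add_re, Complex.one_re, e]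
  linarith

noncomputable def FF (w : ℂ) : ℂ := w + hh (exp w)

def CH : Set ℂ := {w | w.re ≤ 0}

theorem exp_mem_cball {w : ℂ} (hw : w ∈ CH) : exp w ∈ closedBall (0:ℂ) 1 := by
  rw [mem_closedBall_zero_iff, Complex.norm_exp]
  exact Real.exp_le_one_iff.mpr hw

theorem FF_contOn : ContinuousOn FF CH := by
  unfold FF
  apply continuousOn_id.add
  exact hh_contOn.comp Complex.continuous_exp.continuousOn (fun w hw => exp_mem_cball hw)

theorem FF_deriv {w : ℂ} (hw : w ∈ LH) : HasDerivAt FF (1 + exp w * deriv hh (exp w)) w := by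
  have hd : DifferentiableAt ℂ hh (exp w) := hh_diffOn.differentiableAt (isOpen_ball.mem_nhds (exp_mem_ball hw))
  have h1 : HasDerivAt hh (deriv hh (exp w)) (exp w) := hd.hasDerivAt
  have h2 := h1.comp w (Complex.hasDerivAt_exp w)
  have h3 := (hasDerivAt_id w).add h2
  have e : 1 + exp w * deriv hh (exp w) = 1 + deriv hh (exp w) * exp w := by ring
  rw [e]; exact h3

theorem key_half {w₁ w₂ : ℂ} (h₁ : w₁ ∈ LH) (h₂ : w₂ ∈ LH) :
    1 / 4 * ‖w₁ - w₂‖ ^ 2 ≤ ((FF w₁ - FF w₂) * (starRingEnd ℂ) (w₁ - w₂)).re := by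
  by_cases hne : w₁ = w₂
  · subst hne; simp
  have hF : ∀ w ∈ LH, HasDerivAt (fun w => FF w - (1 / 4 : ℂ) * w) (1 + exp w * deriv hh (exp w) - 1 / 4) w := by
    intro w hw
    have h1 := (hasDerivAt_id w).const_mul (1 / 4 : ℂ)
    rw [mul_one] at h1
    exact (FF_deriv hw).sub h1
  have := key_ineq (F := fun w => FF w - (1 / 4 : ℂ) * w) LH_convex (fun w hw => (hF w hw).differentiableAt) (fun w hw => by
    rw [(hF w hw).deriv, Complex.sub_re]
    have h3 := hh_re' (exp_mem_ball hw)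
    have : ((1:ℂ) / 4).re = 1 / 4 := by norm_num
    rw [this]; linarith) h₁ h₂ hne
  have e : (FF w₁ - (1 / 4 : ℂ) * w₁ - (FF w₂ - (1 / 4 : ℂ) * w₂)) * (starRingEnd ℂ) (w₁ - w₂) =
      (FF w₁ - FF w₂) * (starRingEnd ℂ) (w₁ - w₂) - ((1 / 4 * ‖w₁ - w₂‖ ^ 2 : ℝ) : ℂ) := by
    have : (w₁ - w₂) * (starRingEnd ℂ) (w₁ - w₂) = ((‖w₁ - w₂‖ ^ 2 : ℝ) : ℂ) := by
      rw [Complex.mul_conj, Complex.normSq_eq_norm_sq]
    push_cast at this ⊢
    linear_combination -(1 / 4 : ℂ) * this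
  rw [e, Complex.sub_re, Complex.ofReal_re] at this
  linarith

theorem shift_tendsto {w : ℂ} (hw : w ∈ CH) : Tendsto (fun t : ℝ => w - (t : ℂ)) (𝓝[>] 0) (𝓝[CH] w) := by
  apply tendsto_nhdsWithin_of_tendsto_nhds_of_eventually_within
  · have : Tendsto (fun t : ℝ => w - (t : ℂ)) (𝓝 0) (𝓝 (w - ((0:ℝ) : ℂ))) := by
      apply Continuous.tendsto; fun_prop
    simp only [Complex.ofReal_zero, sub_zero] at this
    exact this.mono_left nhdsWithin_le_nhds
  · filter_upwards [self_mem_nhdsWithin] with t ht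
    have h0 : (0:ℝ) < t := ht
    have h1 : w.re ≤ 0 := hw
    show (w - (t:ℂ)).re ≤ 0
    rw [Complex.sub_re, Complex.ofReal_re]; linarith

theorem key_closed {w₁ w₂ : ℂ} (h₁ : w₁ ∈ CH) (h₂ : w₂ ∈ CH) :
    1 / 4 * ‖w₁ - w₂‖ ^ 2 ≤ ((FF w₁ - FF w₂) * (starRingEnd ℂ) (w₁ - w₂)).re := by
  have c1 : Tendsto (fun t : ℝ => FF (w₁ - (t : ℂ))) (𝓝[>] 0) (𝓝 (FF w₁)) :=
    (FF_contOn w₁ h₁).tendsto.comp (shift_tendsto h₁)
  have c2 : Tendsto (fun t : ℝ => FF (w₂ - (t : ℂ))) (𝓝[>] 0) (𝓝 (FF w₂)) :=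
    (FF_contOn w₂ h₂).tendsto.comp (shift_tendsto h₂)
  have c3 := (Complex.continuous_re.tendsto _).comp ((c1.sub c2).mul_const ((starRingEnd ℂ) (w₁ - w₂)))
  refine ge_of_tendsto c3 ?_
  filter_upwards [self_mem_nhdsWithin] with t ht
  have h0 : (0:ℝ) < t := ht
  have m : ∀ w ∈ CH, w - (t : ℂ) ∈ LH := by
    intro w hw
    have h1 : w.re ≤ 0 := hw
    show (w - (t:ℂ)).re < 0
    rw [Complex.sub_re, Complex.ofReal_re]; linarith
  have := key_half (m _ h₁) (m _ h₂)
  rw [show w₁ - (t : ℂ) - (w₂ - (t : ℂ)) = w₁ - w₂ by ring] at this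
  exact this

theorem ff_exp (w : ℂ) : ff (exp w) = exp (FF w) := by
  unfold ff FF; rw [Complex.exp_add]

theorem FF_per (w : ℂ) (k : ℤ) : FF (w + k * (2 * Real.pi * I)) = FF w + k * (2 * Real.pi * I) := by
  simp only [FF]
  have : exp (w + k * (2 * Real.pi * I)) = exp w := by
    rw [Complex.exp_add, Complex.exp_int_mul_two_pi_mul_I, mul_one]
  rw [this]; ring

theorem ff_injOn : InjOn ff (closedBall 0 1) := by
  have hlog : ∀ z ∈ closedBall (0:ℂ) 1, z ≠ 0 → ∃ w ∈ CH, exp w = z := by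
    intro z hz hz0
    refine ⟨log z, ?_, Complex.exp_log hz0⟩
    show (log z).re ≤ 0
    rw [Complex.log_re]
    exact Real.log_nonpos (norm_nonneg _) (by simpa using hz)
  have hz0 : ∀ z, ff z = 0 → z = 0 := by
    intro z hz
    unfold ff at hz
    rcases mul_eq_zero.mp hz with h | h
    · exact h
    · exact absurd h (Complex.exp_ne_zero _)
  intro z₁ hz₁ z₂ hz₂ hEq
  by_cases h1 : z₁ = 0
  · subst h1
    have : ff z₂ = 0 := by rw [← hEq]; simp [ff]
    exact (hz0 _ this).symm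
  by_cases h2 : z₂ = 0
  · subst h2
    have : ff z₁ = 0 := by rw [hEq]; simp [ff]
    exact hz0 _ this
  obtain ⟨w₁, hw₁, rfl⟩ := hlog z₁ hz₁ h1
  obtain ⟨w₂, hw₂, rfl⟩ := hlog z₂ hz₂ h2
  rw [ff_exp, ff_exp] at hEq
  obtain ⟨k, hk⟩ := Complex.exp_eq_exp_iff_exists_int.mp hEq
  rw [← FF_per] at hk
  have hw3 : w₂ + k * (2 * Real.pi * I) ∈ CH := by
    show (w₂ + k * (2 * Real.pi * I)).re ≤ 0
    have : (w₂ + k * (2 * Real.pi * I)).re = w₂.re := by simp
    rw [this]; exact hw₂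
  have key := key_closed hw₁ hw3
  rw [hk, sub_self, zero_mul, Complex.zero_re] at key
  have h3 : ‖w₁ - (w₂ + k * (2 * Real.pi * I))‖ ^ 2 ≤ 0 := by linarith
  have h4 : ‖w₁ - (w₂ + k * (2 * Real.pi * I))‖ = 0 := by
    have := sq_nonneg ‖w₁ - (w₂ + k * (2 * Real.pi * I))‖
    exact pow_eq_zero_iff (two_ne_zero) |>.mp (le_antisymm h3 this)
  rw [norm_eq_zero, sub_eq_zero] at h4
  rw [h4, Complex.exp_add, Complex.exp_int_mul_two_pi_mul_I, mul_one]

theorem ff_contOn : ContinuousOn ff (closedBall 0 1) := by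
  unfold ff
  exact continuousOn_id.mul hh_contOn.cexp

theorem xi_inj : Function.Injective xi := by
  intro x y hxy
  by_contra hne
  have hex : ∃ i, x i ≠ y i := by
    by_contra h; push Not at h; exact hne (funext h)
  obtain ⟨i, hi⟩ := hex
  have h1 := th_sep' x y i ⟨i, le_refl i, hi⟩
  have h2 := exp_sub_one_ge (th_diff_le x y)
  have e : xi x - xi y = xi y * (exp (I * ((th x - th y : ℝ))) - 1) := by
    rw [mul_sub, mul_one, xi, xi, ← Complex.exp_add]; congr 2; push_cast; ring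
  rw [hxy, sub_self] at e
  have hy : xi y ≠ 0 := by
    intro h0; have := norm_xi y; rw [h0] at this; simp at this
  have h3 : exp (I * ((th x - th y : ℝ))) - 1 = 0 := by
    rcases mul_eq_zero.mp e.symm with h | h
    · exact absurd h hy
    · exact h
  rw [h3, norm_zero] at h2
  have := eps_pos i
  linarith

/-- the subsets of the image -/
noncomputable def KK (a : ℕ → Bool) : Set ℂ := Set.range (fun b => ff (xi (J a b)))

theorem ffxi_cont : Continuous (fun x => ff (xi x)) := by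
  apply ff_contOn.comp_continuous xi_cont
  intro x; simp [norm_xi]

theorem KK_compact (a : ℕ → Bool) : IsCompact (KK a) :=
  isCompact_range (ffxi_cont.comp (J_cont a))

theorem EE_compact : IsCompact EE := isCompact_range xi_cont

theorem KK_sub (a : ℕ → Bool) : KK a ⊆ ff '' EE := by
  rintro _ ⟨b, rfl⟩
  exact ⟨xi (J a b), ⟨J a b, rfl⟩, rfl⟩

theorem J_left {a a' b b' : ℕ → Bool} (h : J a b = J a' b') : a = a' := by
  funext i
  have := congrFun h (2 * i)
  unfold J at this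
  rw [if_pos (by omega), if_pos (by omega), show 2 * i / 2 = i by omega] at this
  exact this

theorem KK_disj {a a' : ℕ → Bool} (h : a ≠ a') : Disjoint (KK a) (KK a') := by
  rw [Set.disjoint_left]
  rintro _ ⟨b, rfl⟩ ⟨b', hb'⟩
  have h1 : xi (J a' b') = xi (J a b) := ff_injOn (by simp [norm_xi]) (by simp [norm_xi]) hb'
  exact h (J_left (xi_inj h1)).symm

theorem phi_ge (x : ℕ → Bool) : -30 ≤ phi x := by
  have h1 := hh_bound (norm_xi x).le
  have h2 := Complex.abs_re_le_norm (hh (xi x))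
  have := abs_le.mp (h2.trans h1)
  exact this.1

theorem KK_icc (a : ℕ → Bool) : Icc (Real.exp (phi (J a fun _ => false))) (Real.exp (phi (J a fun _ => true))) ⊆
    (fun w : ℂ => ‖w‖) '' (KK a) := by
  intro s hs
  have hs0 : 0 < s := lt_of_lt_of_le (Real.exp_pos _) hs.1
  obtain ⟨x, hx⟩ := fill_interval (fun b => phi (J a b)) (phi_cont.comp (J_cont a)) (overlap a) (s := Real.log s) (by
      show phi _ ≤ _
      rw [Real.le_log_iff_exp_le hs0]; exact hs.1) (by
      show _ ≤ phi _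
      rw [Real.log_le_iff_le_exp hs0]; exact hs.2)
  refine ⟨ff (xi (J a x)), ⟨x, rfl⟩, ?_⟩
  show ‖ff (xi (J a x))‖ = s
  have hx' : phi (J a x) = Real.log s := hx
  rw [norm_ff_xi, hx', Real.exp_log hs0]

theorem len_ge (a : ℕ → Bool) : Real.exp (-30) ≤ Real.exp (phi (J a fun _ => true)) - Real.exp (phi (J a fun _ => false)) := by
  have h1 := phi_lt a
  have h2 := phi_ge (J a fun _ => false)
  have h3 : Real.exp (phi (J a fun _ => false)) * 2 ≤ Real.exp (phi (J a fun _ => true)) := by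
    calc Real.exp (phi (J a fun _ => false)) * 2 ≤ Real.exp (phi (J a fun _ => false)) * Real.exp 1 := by
          have : (2:ℝ) ≤ Real.exp 1 := by have := Real.add_one_le_exp (1:ℝ); linarith
          gcongr
      _ = Real.exp (phi (J a fun _ => false) + 1) := by rw [Real.exp_add]
      _ ≤ _ := Real.exp_le_exp.mpr h1
  have h4 : Real.exp (-30) ≤ Real.exp (phi (J a fun _ => false)) := Real.exp_le_exp.mpr h2
  linarith

theorem KK_meas (a : ℕ → Bool) : ENNReal.ofReal (Real.exp (-30)) ≤ MeasureTheory.Measure.hausdorffMeasure (X := ℂ) 1 (KK a) := by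
  have h1 : MeasureTheory.Measure.hausdorffMeasure (X := ℝ) 1 ((fun w : ℂ => ‖w‖) '' (KK a)) ≤
      MeasureTheory.Measure.hausdorffMeasure (X := ℂ) 1 (KK a) := by
    have := (lipschitzWith_one_norm (E := ℂ)).hausdorffMeasure_image_le (d := 1) (by norm_num) (KK a)
    simpa using this
  refine le_trans ?_ h1
  refine le_trans ?_ (measure_mono (KK_icc a))
  rw [MeasureTheory.hausdorffMeasure_real, Real.volume_Icc]
  exact ENNReal.ofReal_le_ofReal (len_ge a)

theorem uncountable_cantor : ¬ (Set.univ : Set (ℕ → Bool)).Countable := by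
  intro h
  rw [Set.countable_univ_iff] at h
  obtain ⟨f, hf⟩ := exists_surjective_nat (ℕ → Bool)
  obtain ⟨n, hn⟩ := hf (fun n => ! f n n)
  have := congrFun hn n
  simp at this

theorem not_sigma : ¬ SigmaFinite ((MeasureTheory.Measure.hausdorffMeasure (X := ℂ) 1).restrict (ff '' EE)) := by
  intro hsf
  have h := Measure.countable_meas_pos_of_disjoint_iUnion
    (μ := (MeasureTheory.Measure.hausdorffMeasure (X := ℂ) 1).restrict (ff '' EE)) (As := KK)
    (fun a => (KK_compact a).measurableSet) (fun a a' h => KK_disj h)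
  apply uncountable_cantor
  refine h.mono (fun a _ => ?_)
  rw [Set.mem_setOf_eq, Measure.restrict_apply (KK_compact a).measurableSet, inter_eq_left.mpr (KK_sub a)]
  refine lt_of_lt_of_le ?_ (KK_meas a)
  rw [ENNReal.ofReal_pos]
  exact Real.exp_pos _

/-- a uniform covering of the set -/
theorem EE_cover (n : ℕ) : EE ⊆ ⋃ v : Fin (n+1) → Bool, arc (th (fun i => if h : i < n+1 then v ⟨i, h⟩ else false)) (2 * eps (n+1)) := by
  rintro _ ⟨x, rfl⟩
  rw [mem_iUnion]
  refine ⟨fun i => x i, ?_⟩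
  refine ⟨th x, ⟨?_, ?_⟩, rfl⟩
  · apply th_mono
    intro i hi
    split_ifs at hi
    exact hi
  · have := th_close x (fun i => if h : i < n+1 then x i else false) (n+1) (by
      intro i hi; simp [hi])
    rw [abs_le] at this
    linarith [this.2]

theorem ee_big (n : ℕ) : (n : ℝ) < ee (n+1) := by
  have h2 := LL_ge' n
  have h3 : (n:ℝ) < 2 ^ n := by exact_mod_cast Nat.lt_two_pow_self
  have h4 : (0:ℝ) < 2 ^ n := by positivity
  linarith [ee_succ n]

theorem EE_zero : ZeroLogMeasure EE := by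
  intro ε hε
  obtain ⟨n, hn⟩ : ∃ n : ℕ, 1 / ee n < ε := by
    obtain ⟨n, hn⟩ := exists_nat_gt (1 / ε)
    refine ⟨n + 1, ?_⟩
    have h1 := ee_big n
    rw [div_lt_iff₀ (ee_pos _)]
    rw [div_lt_iff₀ hε] at hn
    nlinarith
  have hlog : Real.log (1 / (2 * eps (n+1))) = ee (n+1) - Real.log 2 := by
    rw [one_div, Real.log_inv, Real.log_mul (by norm_num) (eps_pos _).ne', eps, Real.log_exp]; ring
  refine ⟨Fin (n+1) → Bool, inferInstance, fun v => th (fun i => if h : i < n+1 then v ⟨i, h⟩ else false),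
    fun _ => 2 * eps (n+1), ?_, EE_cover n, ?_, ?_⟩
  · intro _
    have := eps_pos (n+1); have := eps_le (n+1)
    constructor <;> linarith
  · exact (hasSum_fintype _).summable
  · rw [tsum_fintype, Finset.sum_const, Finset.card_univ, nsmul_eq_mul, hlog]
    rw [Fintype.card_fun, Fintype.card_bool, Fintype.card_fin]
    push_cast
    have h2 := log_two_le
    have h3 : 32 * 2 ^ (n+1) * ee n ≤ ee (n+1) := by
      have := ee_succ n
      rw [LL] at this
      calc 32 * 2 ^ (n+1) * ee n = 2 * (32 * 2 ^ n * ee n) := by ring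
        _ ≤ _ := this
    have h4 : (1:ℝ) ≤ 2 ^ (n+1) := one_le_pow₀ (by norm_num)
    have h5 := ee_ge n
    have h6 : 2 ^ (n+1) * ee n ≤ ee (n+1) - Real.log 2 := by nlinarith
    have h7 : (0:ℝ) < 2 ^ (n+1) * ee n := by positivity
    calc (2:ℝ) ^ (n+1) * (1 / (ee (n+1) - Real.log 2)) ≤ 2 ^ (n+1) * (1 / (2 ^ (n+1) * ee n)) := by
          gcongr
      _ = 1 / ee n := by field_simp
      _ < ε := hn

/-- `E` is small with respect to the gauge `h`: for every `ε > 0` it is covered by finitely many arcs of lengths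
`l i < ε` with `∑ |h (l i)| < ε`. -/
def ZeroGauge (h : ℝ → ℝ) (E : Set ℂ) : Prop :=
  ∀ ε : ℝ, 0 < ε → ∃ (ι : Type) (_ : Fintype ι) (a l : ι → ℝ),
    (∀ i, 0 < l i ∧ l i < ε) ∧ E ⊆ ⋃ i, arc (a i) (l i) ∧ ∑ i, |h (l i)| < ε

theorem EE_gauge (h : ℝ → ℝ) (hh1 : ∀ k : ℕ, |h (2 * eps (k+1))| ≤ 1 / 4 ^ (k+1)) : ZeroGauge h EE := by
  intro ε hε
  obtain ⟨n, hn⟩ := exists_pow_lt_of_lt_one hε (show (1/2 : ℝ) < 1 by norm_num)
  refine ⟨Fin (n+1) → Bool, inferInstance, fun v => th (fun i => if h : i < n+1 then v ⟨i, h⟩ else false),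
    fun _ => 2 * eps (n+1), ?_, EE_cover n, ?_⟩
  · intro _
    have h1 := eps_pos (n+1)
    refine ⟨by linarith, lt_of_le_of_lt ?_ hn⟩
    have h2 := eps_add_le 0 (n+1)
    rw [zero_add] at h2
    have h3 := eps_le 0
    have h4 : (1/64 : ℝ) ^ (n+1) ≤ (1/2) ^ n := by
      calc (1/64 : ℝ) ^ (n+1) ≤ (1/2) ^ (n+1) := pow_le_pow_left₀ (by norm_num) (by norm_num) _
        _ ≤ (1/2) ^ n := pow_le_pow_of_le_one (by norm_num) (by norm_num) (by omega)
    have h5 : (0:ℝ) < (1/64 : ℝ) ^ (n+1) := by positivity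
    nlinarith
  · rw [Finset.sum_const, Finset.card_univ, nsmul_eq_mul, Fintype.card_fun, Fintype.card_bool, Fintype.card_fin]
    push_cast
    refine lt_of_le_of_lt ?_ hn
    calc (2:ℝ) ^ (n+1) * |h (2 * eps (n+1))| ≤ 2 ^ (n+1) * (1 / 4 ^ (n+1)) := by
          have := hh1 n
          gcongr
      _ = (1/2) ^ (n+1) := by
          rw [show (4:ℝ) ^ (n+1) = 2 ^ (n+1) * 2 ^ (n+1) by rw [← mul_pow]; norm_num, one_div_pow]
          field_simp
      _ ≤ (1/2) ^ n := pow_le_pow_of_le_one (by norm_num) (by norm_num) (by omega)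

end Pool.Agent.Y847.SG

namespace Pool.Agent.Y847.SG

noncomputable def seqE (T : ℕ → ℝ) : ℕ → ℝ
  | 0 => 32
  | (k+1) => max (2 * (32 * 2 ^ k * seqE T k)) (T k)

theorem exists_dat (h : ℝ → ℝ) (hh : Tendsto h (𝓝[>] 0) (𝓝 0)) :
    ∃ D : Dat, ∀ k : ℕ, |h (2 * @eps D (k+1))| ≤ 1 / 4 ^ (k+1) := by
  have hlim : Tendsto (fun e : ℝ => 2 * Real.exp (-e)) atTop (𝓝[>] 0) := by
    apply tendsto_nhdsWithin_of_tendsto_nhds_of_eventually_within
    · have := (Real.tendsto_exp_neg_atTop_nhds_zero).const_mul 2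
      simpa using this
    · exact Eventually.of_forall (fun e => by
        show 0 < 2 * Real.exp (-e)
        positivity)
  have h1 := hh.comp hlim
  have h2 : ∀ k : ℕ, ∃ T : ℝ, ∀ e, T ≤ e → |h (2 * Real.exp (-e))| ≤ 1 / 4 ^ (k+1) := by
    intro k
    have h3 := (Metric.tendsto_nhds.mp h1) (1 / 4 ^ (k+1)) (by positivity)
    obtain ⟨T, hT⟩ := eventually_atTop.mp h3
    refine ⟨T, fun e he => ?_⟩
    have := hT e he
    rw [Real.dist_eq, sub_zero] at this
    exact this.le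
  choose T hT using h2
  refine ⟨⟨seqE T, le_refl _, fun k => le_max_left _ _⟩, fun k => ?_⟩
  exact hT k _ (le_max_right _ _)

/-- main theorem -/
theorem main (h : ℝ → ℝ) (hh : Tendsto h (𝓝[>] 0) (𝓝 0)) :
    ∃ (f : ℂ → ℂ) (E : Set ℂ), NormBddStarlike f ∧ ContinuousOn f (closedBall 0 1) ∧ InjOn f (closedBall 0 1) ∧
      E ⊆ sphere 0 1 ∧ IsCompact E ∧ ZeroLogMeasure E ∧ ZeroGauge h E ∧
      (∃ K : (ℕ → Bool) → Set ℂ, (∀ a, IsCompact (K a) ∧ K a ⊆ f '' E) ∧ (∀ a a', a ≠ a' → Disjoint (K a) (K a')) ∧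
        (∀ a, ∃ r : ℝ, 0 < r ∧ Icc r (r + Real.exp (-30)) ⊆ (fun w : ℂ => ‖w‖) '' K a) ∧
        ∀ a, ENNReal.ofReal (Real.exp (-30)) ≤ Measure.hausdorffMeasure (X := ℂ) 1 (K a)) ∧
      ¬ SigmaFinite ((Measure.hausdorffMeasure (X := ℂ) 1).restrict (f '' E)) := by
  obtain ⟨D, hD⟩ := exists_dat h hh
  let _ := D
  refine ⟨ff, EE, ff_starlike, ff_contOn, ff_injOn, ?_, EE_compact, EE_zero, EE_gauge h hD, ?_, not_sigma⟩
  · rintro _ ⟨x, rfl⟩; simp [norm_xi]
  · refine ⟨KK, fun a => ⟨KK_compact a, KK_sub a⟩, fun a a' h => KK_disj h, fun a => ?_, KK_meas⟩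
    refine ⟨Real.exp (phi (J a fun _ => false)), Real.exp_pos _, fun s hs => KK_icc a ⟨hs.1, ?_⟩⟩
    have := len_ge a
    linarith [hs.2]

end Pool.Agent.Y847.SG
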